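import Pool.Agent.D0H10.KH.Lim

/-!
# Projects FF, L3, L9: the final statement over `ℚ(√-3)`

Joint work of the projects FF (see `Pool/Agent/N883/FF/End.lean`), L3 and L9 (plan and analytic part:
helper43; helper10, helper15, helper2, helper42, helper45, helper52, helper69, helper92 for the other
parts, see the headers of the imported files).
-/

set_option autoImplicit false
set_option linter.unusedVariables false
set_option linter.unusedSectionVars false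

open scoped Classical

namespace Pool.Agent.D0H10.KH

open NumberField Filter Topology
open Pool.Agent.Y692.QS (Ei w nr toC nr_mul)
open Pool.Agent.Y703.CT
open Pool.Agent.Y703.XK (c9)
open Pool.Agent.Y715.T.Gi (lam prime_lam lam_sq)
open Pool.Agent.Y696.CTK (Tri ED)
open Pool.Agent.Y696.XK (RkZ img_ncard)
open Pool.Agent.N883.FF (fam_data FamE pB)
open Pool.Agent.R419.KF (EntL)

/-- the family over `𝓞 K`: cube-free, and not a divisor of `3` -/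
def FamH {K : Type} [Field K] [NumberField K] (D : 𝓞 K) : Prop :=
  ¬ D ∣ 3 ∧ ∀ x : 𝓞 K, x ^ 3 ∣ D → IsUnit x

/-- the exceptional class: `D ^ 2` is `1` modulo `√-3 ^ 3` -/
def ExcH {K : Type} [Field K] [NumberField K] (D : 𝓞 K) : Prop :=
  ∃ l : 𝓞 K, l ^ 2 = -3 ∧ l ^ 3 ∣ D ^ 2 - 1

/-- `D` is divisible exactly `a` times by `√-3` -/
def ExtH {K : Type} [Field K] [NumberField K] (a : ℕ) (D : 𝓞 K) : Prop :=
  ∃ l : 𝓞 K, l ^ 2 = -3 ∧ l ^ a ∣ D ∧ ¬ l ^ (a + 1) ∣ D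

section
variable {K : Type} [Field K] [NumberField K] (j : Ei ≃+* 𝓞 K)

lemma famH_iff (D : Ei) : FamH (j D) ↔ CFam D := by
  unfold FamH CFam
  refine and_congr (not_congr ?_) ?_
  · rw [← map_ofNat j 3, map_dvd_iff j]
  · constructor
    · intro h x hx
      have h1 := h (j x) (by rw [← map_pow]; exact map_dvd j hx)
      exact (MulEquiv.isUnit_map j).1 h1
    · intro h x hx
      obtain ⟨y, rfl⟩ := j.surjective x
      rw [← map_pow, map_dvd_iff j] at hx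
      exact (h y hx).map j

lemma jl : (j lam) ^ 2 = -3 := by
  rw [← map_pow, lam_sq, map_neg, map_ofNat]

lemma sq_cases {l : 𝓞 K} (h : l ^ 2 = -3) : l = j lam ∨ l = -j lam := by
  have h1 : (l - j lam) * (l + j lam) = 0 := by
    have := jl j
    linear_combination h - this
  rcases mul_eq_zero.1 h1 with h2 | h2
  · exact Or.inl (sub_eq_zero.1 h2)
  · exact Or.inr (eq_neg_of_add_eq_zero_left h2)

lemma neg_pow_dvd {l x : 𝓞 K} (n : ℕ) : (-l) ^ n ∣ x ↔ l ^ n ∣ x := by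
  rw [neg_pow, ((isUnit_one.neg).pow n).mul_left_dvd]

lemma excH_iff (D : Ei) : ExcH (j D) ↔ ExcE D := by
  unfold ExcH ExcE
  have e1 : (j D) ^ 2 - 1 = j (D ^ 2 - 1) := by rw [map_sub, map_pow, map_one]
  rw [e1]
  constructor
  · rintro ⟨l, hl, h⟩
    rcases sq_cases j hl with rfl | rfl
    · rw [← map_pow, map_dvd_iff j] at h
      exact h
    · rw [neg_pow_dvd, ← map_pow, map_dvd_iff j] at h
      exact h
  · intro h
    refine ⟨j lam, jl j, ?_⟩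
    rw [← map_pow, map_dvd_iff j]
    exact h

lemma extH_iff (a : ℕ) (D : Ei) : ExtH a (j D) ↔ (lam ^ a ∣ D ∧ ¬ lam ^ (a + 1) ∣ D) := by
  unfold ExtH
  constructor
  · rintro ⟨l, hl, h⟩
    rcases sq_cases j hl with rfl | rfl
    · rw [← map_pow, ← map_pow, map_dvd_iff j, map_dvd_iff j] at h
      exact h
    · rw [neg_pow_dvd, neg_pow_dvd, ← map_pow, ← map_pow, map_dvd_iff j, map_dvd_iff j] at h
      exact h
  · intro h
    refine ⟨j lam, jl j, ?_⟩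
    rw [← map_pow, ← map_pow, map_dvd_iff j, map_dvd_iff j]
    exact h

theorem factsH [IsCyclotomicExtension {3} ℚ K] (hj : ∀ z : Ei, Algebra.norm ℤ (j z) = nr z)
    {D : 𝓞 K} (hD : FamH D) (hx : ¬ ExcH D) : FactsH D := by
  obtain ⟨D, rfl⟩ := j.surjective D
  obtain ⟨b, a, z, ha, hz, rfl⟩ := dec ((famH_iff j D).1 hD)
  obtain ⟨i, n, π, e, hdt, rfl⟩ := fam_data hz
  have hpB : pB π e i = w ^ i.val * pD π e := rfl
  rw [hpB] at hz hx ⊢
  rw [excH_iff] at hx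
  interval_cases a
  · rw [exc_iff hz b, not_not] at hx
    exact facts0 j hj hdt i (nx_i hdt hx) hz hx b
  · exact facts9 j hdt i b
  · exact facts3 j hdt i b

end

/-- **The final statement.** -/
theorem finalH (K : Type) [Field K] [NumberField K] [IsCyclotomicExtension {3} ℚ K] :
    (∃ c : ℝ, 0 < c ∧ ∃ X₀ : ℕ, ∀ X : ℕ, X₀ ≤ X →
      c * X ≤ ({D : 𝓞 K | Algebra.norm ℤ D ≤ X ∧ FamH D}.ncard : ℝ)) ∧
    (∀ D : 𝓞 K, FamH D → ¬ ExcH D → FactsH D) ∧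
    Tendsto (fun X : ℕ =>
      ({D : 𝓞 K | Algebra.norm ℤ D ≤ X ∧ FamH D ∧ ¬ ExcH D ∧ Tri D}.ncard : ℝ) /
        ({D : 𝓞 K | Algebra.norm ℤ D ≤ X ∧ FamH D}.ncard : ℝ)) atTop
      (nhds (12 / 13 * ∏' i : ℕ, (1 - (1 / 3 : ℝ) ^ (2 * i + 1)))) ∧
    (∀ a : ℕ, a = 1 ∨ a = 2 → Tendsto (fun X : ℕ =>
      ({D : 𝓞 K | Algebra.norm ℤ D ≤ X ∧ FamH D ∧ ExtH a D ∧ Tri D}.ncard : ℝ) /
        ({D : 𝓞 K | Algebra.norm ℤ D ≤ X ∧ FamH D ∧ ExtH a D}.ncard : ℝ)) atTop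
      (nhds (∏' i : ℕ, (1 - (1 / 3 : ℝ) ^ (2 * i + 1))))) ∧
    (0.5898 : ℝ) < 12 / 13 * ∏' i : ℕ, (1 - (1 / 3 : ℝ) ^ (2 * i + 1)) ∧
    (0.639 : ℝ) < ∏' i : ℕ, (1 - (1 / 3 : ℝ) ^ (2 * i + 1)) := by
  obtain ⟨⟨j, hj⟩, -⟩ := Pool.Agent.Y455.CTK.jex K
  have e2 : ∀ X : ℕ, {D : 𝓞 K | Algebra.norm ℤ D ≤ X ∧ FamH D}.ncard =
      {D : Ei | nr D ≤ X ∧ CFam D}.ncard := fun X =>
    img_ncard j hj X CFam FamH fun D => (famH_iff j D).symm
  have e1 : ∀ X : ℕ, {D : 𝓞 K | Algebra.norm ℤ D ≤ X ∧ FamH D ∧ ¬ ExcH D ∧ Tri D}.ncard =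
      {D : Ei | nr D ≤ X ∧ CFam D ∧ (¬ ExcE D ∧ Tri (j D))}.ncard := fun X =>
    img_ncard j hj X (fun D => CFam D ∧ (¬ ExcE D ∧ Tri (j D)))
      (fun D => FamH D ∧ ¬ ExcH D ∧ Tri D)
      fun D => and_congr (famH_iff j D).symm (and_congr (not_congr (excH_iff j D).symm) Iff.rfl)
  have e3 : ∀ (a X : ℕ), {D : 𝓞 K | Algebra.norm ℤ D ≤ X ∧ FamH D ∧ ExtH a D ∧ Tri D}.ncard =
      {D : Ei | nr D ≤ X ∧ CFam D ∧ ((lam ^ a ∣ D ∧ ¬ lam ^ (a + 1) ∣ D) ∧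
        Tri (j D))}.ncard := fun a X =>
    img_ncard j hj X (fun D => CFam D ∧ ((lam ^ a ∣ D ∧ ¬ lam ^ (a + 1) ∣ D) ∧ Tri (j D)))
      (fun D => FamH D ∧ ExtH a D ∧ Tri D)
      fun D => and_congr (famH_iff j D).symm (and_congr (extH_iff j a D).symm Iff.rfl)
  have e4 : ∀ (a X : ℕ), {D : 𝓞 K | Algebra.norm ℤ D ≤ X ∧ FamH D ∧ ExtH a D}.ncard =
      {D : Ei | nr D ≤ X ∧ CFam D ∧ (lam ^ a ∣ D ∧ ¬ lam ^ (a + 1) ∣ D)}.ncard := fun a X =>
    img_ncard j hj X (fun D => CFam D ∧ (lam ^ a ∣ D ∧ ¬ lam ^ (a + 1) ∣ D))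
      (fun D => FamH D ∧ ExtH a D)
      fun D => and_congr (famH_iff j D).symm (extH_iff j a D).symm
  have h639 : (0.639 : ℝ) < ∏' i : ℕ, (1 - (1 / 3 : ℝ) ^ (2 * i + 1)) :=
    Pool.Agent.XLK.t_C9.2.2.2.1
  refine ⟨?_, fun D hD hx => factsH j hj hD hx, ?_, ?_, by linarith, h639⟩
  · obtain ⟨⟨c, hc, X₀, h⟩, -⟩ := Pool.Agent.N883.FF.finalB K
    refine ⟨c, hc, X₀, fun X hX => (h X hX).trans ?_⟩
    rw [e2, card_cfam]
    have e5 : {D : 𝓞 K | Algebra.norm ℤ D ≤ X ∧ Pool.Agent.N883.FF.FamK D}.ncard = FC X :=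
      img_ncard j hj X FamE Pool.Agent.N883.FF.FamK fun D => (Pool.Agent.N883.FF.famK_iff j D).symm
    rw [e5]
    have : FC X ≤ 2 * (FC X + FC (X / 3) + FC (X / 3 / 3)) := by omega
    exact_mod_cast this
  · simp only [e1, e2]
    exact lim_all j hj
  · intro a ha
    simp only [e3, e4]
    exact lim_cls j a ha

end Pool.Agent.D0H10.KH
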