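import Pool.Agent.D0H10.KH.Tr
import Pool.Agent.D0H10.L3.SelcT
import Pool.Agent.D0H10.L3.Cub3T
import Pool.Agent.D0H10.L3.RamcT
import Pool.Agent.D0H10.L9.SelcN
import Pool.Agent.D0H10.L9.Cub3N
import Pool.Agent.D0H10.L9.RamcN
import Pool.Agent.D0H15.L9.All
import Pool.Agent.D0H43.L9.Ann
import Pool.Agent.D0H43.L3.Ant
import Pool.Agent.D0H43.L3.Fin

/-!
# The curves `y² + D y = x³` for all cube-free `D`
-/

set_option autoImplicit false
set_option linter.unusedVariables false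
set_option linter.unusedSectionVars false

namespace Pool.Agent.D0H10.KH

open NumberField IsDedekindDomain WeierstrassCurve
open Pool.Agent.W189.NF (aV eV)
open Pool.Agent.Y703.CT
open Pool.Agent.Y696 Pool.Agent.Y696.CT
open Pool.Agent.Y696.CTK
open Pool.Agent.Y696.XK (RkZ rkz_of disc_ED)
open Pool.Agent.R419.KF (EntL)
open Pool.Agent.Y692.QS hiding chi
open Pool.Agent.Y715.T.Rec (cs)
open Pool.Agent.Y715.T.RecG (Pq)
open Pool.Agent.N883.FF (FamE fam_data NxE pB FactsF FamK NxK famK_iff nxK_iff)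
open Pool.Agent.N883.FF.Lk (isUnit_wpow)
open Pool.Agent.Y715.T.Gi (lam prime_lam lam_sq QB GK ev ev_ne gk_ev Kc)
open Pool.Agent.D0H43.L3 (KerT pT tq IsHLT)
open Pool.Agent.D0H43.L9 (KerN pN qN pX pX_one pX_two xq xq_one xq_two)
open scoped Classical

section
variable {K : Type} [Field K] [NumberField K] (j : Ei ≃+* 𝓞 K)
variable {J : Type} [Fintype J] {π : J → Ei} {e : J → ZMod 3}

lemma sg_nd {ρ : Ei} (hρ : Pq ρ) (b : Bool) : ¬ ρ ∣ sg b := fun h =>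
  hρ.prime.not_isUnit (isUnit_of_dvd_unit h (sg_unit b))

lemma lam_nd {ρ : Ei} (hρ : Pq ρ) : ¬ ρ ∣ lam := fun h => hρ.norm (h.trans lam_dvd_three)

lemma z_nd (hdt : Dt π e) (i : ZMod 3) : ¬ lam ∣ w ^ i.val * pD π e := by
  intro h
  rcases prime_lam.dvd_or_dvd h with h | h
  · exact prime_lam.not_isUnit (isUnit_of_dvd_unit h (isUnit_wpow _))
  · exact Pool.Agent.D0H15.L9.Fin.lam_ndvd_pD hdt h

lemma e9 (hdt : Dt π e) (i : ZMod 3) (b : Bool) :
    sg b * (lam ^ 1 * (w ^ i.val * pD π e)) * (sg b * lam) ^ 3 = pN π e i := by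
  have h1 : sg b ^ 4 = 1 := by
    have : ∀ b, sg b ^ 4 = 1 := by decide
    exact this b
  have h2 : lam ^ 4 = 9 := by decide
  unfold pN
  linear_combination (lam ^ 4 * (w ^ i.val * pD π e)) * h1 + (w ^ i.val * pD π e) * h2

lemma e3 (hdt : Dt π e) (i : ZMod 3) (b : Bool) :
    sg b * (lam ^ 2 * (w ^ i.val * pD π e)) * (-sg b) ^ 3 = pT π e i := by
  have h1 : sg b ^ 4 = 1 := by
    have : ∀ b, sg b ^ 4 = 1 := by decide
    exact this b
  have h2 : lam ^ 2 = -3 := by decide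
  unfold pT
  linear_combination (-lam ^ 2 * (w ^ i.val * pD π e)) * h1 - (w ^ i.val * pD π e) * h2

lemma e1 (hdt : Dt π e) (i : ZMod 3) (b : Bool) :
    sg b * (lam ^ 0 * (w ^ i.val * pD π e)) * (sg b) ^ 3 = w ^ i.val * pD π e := by
  have h1 : sg b ^ 4 = 1 := by
    have : ∀ b, sg b ^ 4 = 1 := by decide
    exact this b
  linear_combination (w ^ i.val * pD π e) * h1

lemma ne_D (hdt : Dt π e) (i : ZMod 3) (b : Bool) (a : ℕ) :
    sg b * (lam ^ a * (w ^ i.val * pD π e)) ≠ 0 := by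
  have h1 : w ^ i.val * pD π e ≠ 0 := fun h => z_nd hdt i (by rw [h]; exact dvd_zero _)
  exact mul_ne_zero (sg_unit b).ne_zero (mul_ne_zero (pow_ne_zero _ prime_lam.ne_zero) h1)

/-! ### the criterion -/

theorem tri9 [Nonempty J] (hdt : Dt π e) (i : ZMod 3) (b : Bool) :
    Tri (j (sg b * (lam ^ 1 * (w ^ i.val * pD π e)))) ↔ KerN π e i := by
  refine tri_gen j (mul_ne_zero (sg_unit b).ne_zero prime_lam.ne_zero) (e9 hdt i b)
    (ne_D hdt i b 1) _ ?_ ?_ ?_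
  · exact fun i₀ hi u a hT => Pool.Agent.D0H15.L9.Fin.a_neN hdt hT
  · exact fun hk i₀ hi u a hT => Pool.Agent.D0H15.L9.selN J π e i hdt hk i₀ hi u a hT
  · intro i₀ hi u a hT hS
    by_contra hk
    exact Pool.Agent.D0H10.L9.selcN Pool.Agent.Y319.CT.t_FF Pool.Agent.Y379.CT.t_CUB
      Pool.Agent.D0H10.L9.cub3N Pool.Agent.Y674.CT.t_PT Pool.Agent.D0H10.L9.ramcN J π e i hdt hk
      i₀ hi u a hT hS

theorem tri3 [Nonempty J] (hdt : Dt π e) (i : ZMod 3) (b : Bool) :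
    Tri (j (sg b * (lam ^ 2 * (w ^ i.val * pD π e)))) ↔ KerT π e i := by
  refine tri_gen j (neg_ne_zero.2 (sg_unit b).ne_zero) (e3 hdt i b)
    (ne_D hdt i b 2) _ ?_ ?_ ?_
  · exact fun i₀ hi u a hT => Pool.Agent.D0H43.L3.Fin.a_neT hdt hT
  · exact fun hk i₀ hi u a hT => Pool.Agent.D0H43.L3.sel Pool.Agent.D0H43.L3.loc3
      Pool.Agent.N883.FF.ram Pool.Agent.N883.FF.unr J π e i hdt hk i₀ hi u a hT
  · intro i₀ hi u a hT hS
    by_contra hk
    exact Pool.Agent.D0H10.L3.selcT Pool.Agent.Y319.CT.t_FF Pool.Agent.Y379.CT.t_CUB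
      Pool.Agent.D0H10.L3.cub3T Pool.Agent.Y674.CT.t_PT Pool.Agent.D0H10.L3.ramcT J π e i hdt hk
      i₀ hi u a hT hS

theorem tri0 [Nonempty J] (hdt : Dt π e) (i : ZMod 3)
    (h9 : i = 0 → ¬ (9 : ℤ) ∣ nr (pD π e) - 1) (b : Bool) :
    Tri (j (sg b * (lam ^ 0 * (w ^ i.val * pD π e)))) ↔ Tri (j (w ^ i.val * pD π e)) := by
  by_cases hi0 : i = 0
  · subst hi0
    have h9' := h9 rfl
    have e0 : w ^ (0 : ZMod 3).val * pD π e = pD π e := by
      rw [ZMod.val_zero, pow_zero, one_mul]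
    have h2 : Tri (j (w ^ (0 : ZMod 3).val * pD π e)) ↔ Ker π e := by
      rw [e0]
      exact Pool.Agent.R419.KF.tri_iff j parts hdt h9'
    rw [h2]
    refine tri_gen j (sg_unit b).ne_zero ((e1 hdt 0 b).trans e0) (ne_D hdt 0 b 0) _ ?_ ?_ ?_
    · exact fun i₀ hi u a hT => a_ne hdt hT
    · exact fun hk i₀ hi u a hT => Pool.Agent.Y48.CT.SEL.t_SEL Pool.Agent.Y350.CT.rec
        Pool.Agent.Y180.CT.t_loc3 Pool.Agent.Y153.CTRAM.t_RAM Pool.Agent.Y153.CTRAM.t_UNR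
        J π e hdt hk h9' i₀ hi u a hT
    · intro i₀ hi u a hT hS
      by_contra hk
      exact Pool.Agent.Y363.CT.SELC.t_SELC Pool.Agent.Y319.CT.t_FF Pool.Agent.Y379.CT.t_CUB
        Pool.Agent.Y100.CT.CUB3.t_cub3 Pool.Agent.Y674.CT.t_PT Pool.Agent.Y379.CT.t_RAMC J π _
        hdt hk h9' i₀ hi u a hT hS
  · have B := Pool.Agent.N883.FF.partsB
    have h2 : Tri (j (w ^ i.val * pD π e)) ↔ Pool.Agent.N883.FF.KerB π e i :=
      Pool.Agent.N883.FF.tri_iffB B j hdt hi0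
    rw [h2]
    refine tri_gen j (sg_unit b).ne_zero (e1 hdt i b) (ne_D hdt i b 0) _ ?_ ?_ ?_
    · exact fun i₀ hi u a hT => Pool.Agent.N883.FF.a_neB hdt hT
    · exact fun hk i₀ hi u a hT => B.sel B.loc3 B.ram B.unr J π e i hdt hi0 hk i₀ hi u a hT
    · intro i₀ hi u a hT hS
      by_contra hk
      exact B.selc Pool.Agent.Y319.CT.t_FF Pool.Agent.Y379.CT.t_CUB
        B.cub3 Pool.Agent.Y674.CT.t_PT B.ramc J π e i hdt hi0 hk i₀ hi u a hT hS

/-! ### the `L`-functions -/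

lemma bad3_one {P : HeightOneSpectrum Ei} (h : (3 : ℤ) ∣ nr (gn P.asIdeal)) {z : Ei}
    (hz : ¬ lam ∣ z) : aV (ED (j z : K)) (pK j P) = 0 ∧ eV (ED (j z : K)) (pK j P) = 0 := by
  have h1 := bad3 j h true (a := 0) (by norm_num) hz
  have e2 : sg true * (lam ^ 0 * z) = z := by
    show (1 : Ei) * (lam ^ 0 * z) = z
    rw [one_mul, pow_zero, one_mul]
  rw [e2] at h1
  exact h1

theorem lf0 (hdt : Dt π e) (i : ZMod 3) (b : Bool) :
    (ED (j (sg b * (lam ^ 0 * (w ^ i.val * pD π e))) : K)).LFunction =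
      (ED (j (w ^ i.val * pD π e) : K)).LFunction :=
  lf_eq j hdt i b b (a' := 0) (by norm_num) (sg b) (fun ρ hρ => sg_nd hρ b) _ (e1 hdt i b)
    (fun P hP => bad3_one j hP (z_nd hdt i)) (z_nd hdt i)

theorem lf9 (hdt : Dt π e) (i : ZMod 3) (b : Bool) :
    (ED (j (sg b * (lam ^ 1 * (w ^ i.val * pD π e))) : K)).LFunction =
      (ED (j (pX 2 π e i) : K)).LFunction := by
  rw [pX_two]
  refine lf_eq j hdt i b b (a' := 0) (by norm_num) (sg b * lam) (fun ρ hρ h => ?_) _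
    (e9 hdt i b) (fun P hP => ?_) (z_nd hdt i)
  · rcases hρ.prime.dvd_or_dvd h with h | h
    · exact sg_nd hρ b h
    · exact lam_nd hρ h
  · rw [← pX_two]
    exact Pool.Agent.D0H42.L9.Lkx.bad_three j hP hdt i (by norm_num) (by norm_num)

theorem lf3 (hdt : Dt π e) (i : ZMod 3) (b : Bool) :
    (ED (j (sg b * (lam ^ 2 * (w ^ i.val * pD π e))) : K)).LFunction =
      (ED (j (pX 1 π e i) : K)).LFunction := by
  rw [pX_one]
  refine lf_eq j hdt i b b (a' := 0) (by norm_num) (-sg b) (fun ρ hρ h => ?_) _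
    (e3 hdt i b) (fun P hP => ?_) (z_nd hdt i)
  · rw [dvd_neg] at h
    exact sg_nd hρ b h
  · rw [← pX_one]
    exact Pool.Agent.D0H42.L9.Lkx.bad_three j hP hdt i (by norm_num) (by norm_num)

/-- the facts on one `D` -/
def FactsH (D : 𝓞 K) : Prop := EntL (ED (D : K)) ∧ (Tri D → RkZ (ED (D : K)))

lemma jne {D : Ei} (h : D ≠ 0) : ((j D : 𝓞 K) : K) ≠ 0 := by
  intro h1
  apply h
  apply j.injective
  rw [map_zero]
  exact NumberField.RingOfIntegers.coe_injective (h1.trans (map_zero _).symm)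

/-- the facts from a function -/
lemma facts_of {D D₀ : Ei} (hne : D ≠ 0) (hL : (ED (j D : K)).LFunction = (ED (j D₀ : K)).LFunction)
    {G : ℂ → ℂ} (hG : Differentiable ℂ G) (hs : ∀ s : ℂ, 3 / 2 < s.re →
      LSeriesSummable ((fun n : ℤ => (n : ℂ)) ∘ (ED (j D₀ : K)).LFunction) s ∧
        G s = (ED (j D₀ : K)).LSeries s) {P : Prop} (htri : Tri (j D) ↔ P) (h1 : P → G 1 ≠ 0) :
    FactsH (j D) := by
  have hLS : ∀ s, (ED (j D₀ : K)).LSeries s = (ED (j D : K)).LSeries s := by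
    intro s
    unfold WeierstrassCurve.LSeries
    rw [hL]
  refine ⟨⟨G, hG, fun s h => ?_⟩, fun ht => ?_⟩
  · rw [hL]
    exact ⟨(hs s h).1, ((hs s h).2).trans (hLS s)⟩
  · exact rkz_of _ (disc_ED (jne j hne)) ht.1 hG (fun s h => ((hs s h).2).trans (hLS s))
      (h1 (htri.1 ht))

lemma conj_ne {F : ℂ → ℂ} (h : F 1 ≠ 0) :
    (fun s => F s * (starRingEnd ℂ) (F ((starRingEnd ℂ) s))) 1 ≠ 0 := by
  simp only [map_one]
  exact mul_ne_zero h ((map_ne_zero _).2 h)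

theorem facts9 [Nonempty J] (hdt : Dt π e) (i : ZMod 3) (b : Bool) :
    FactsH (K := K) (j (sg b * (lam ^ 1 * (w ^ i.val * pD π e)))) := by
  obtain ⟨F, hF, hv⟩ := Pool.Agent.D0H43.L9.ann J π e i hdt
  have hF' : IsHLT π (fun k => -e k) (fun α => -xq 2 i α) F := by
    simpa only [xq_two] using hF
  exact facts_of j (ne_D hdt i b 1) (lf9 j hdt i b) (diff_conj hF.1)
    (fun s hs => Pool.Agent.D0H42.L9.lkx K j J π e i 2 (by norm_num) (by norm_num) hdt F hF' s hs)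
    (tri9 j hdt i b) (fun hk => conj_ne (hv hk).1)

theorem facts3 [Nonempty J] (hdt : Dt π e) (i : ZMod 3) (b : Bool) :
    FactsH (K := K) (j (sg b * (lam ^ 2 * (w ^ i.val * pD π e)))) := by
  obtain ⟨F, hF, hv⟩ := Pool.Agent.D0H43.L3.t_ANT J π e i hdt
  have hF' : IsHLT π (fun k => -e k) (fun α => -xq 1 i α) F := by
    simpa only [xq_one] using hF
  exact facts_of j (ne_D hdt i b 2) (lf3 j hdt i b) (diff_conj hF.1)
    (fun s hs => Pool.Agent.D0H42.L9.lkx K j J π e i 1 (by norm_num) (by norm_num) hdt F hF' s hs)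
    (tri3 j hdt i b) (fun hk => conj_ne (hv hk).1)

/-- from `D` to `- D` -/
theorem facts0 [IsCyclotomicExtension {3} ℚ K] (hj : ∀ z : Ei, Algebra.norm ℤ (j z) = nr z)
    [Nonempty J] (hdt : Dt π e) (i : ZMod 3)
    (h9 : i = 0 → ¬ (9 : ℤ) ∣ nr (pD π e) - 1) (hF : FamE (w ^ i.val * pD π e))
    (hN : NxE (w ^ i.val * pD π e)) (b : Bool) :
    FactsH (K := K) (j (sg b * (lam ^ 0 * (w ^ i.val * pD π e)))) := by
  have hf : FactsF (j (w ^ i.val * pD π e)) := Pool.Agent.N883.FF.facts j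
    Pool.Agent.N883.FF.partsB hj ((famK_iff j _).2 hF) ((nxK_iff j hj _).2 hN)
  obtain ⟨-, ⟨G, hG, hs⟩, -, -, h5⟩ := hf
  have hL := lf0 j hdt i b
  have htri := tri0 j hdt i h9 b
  have hLS : ∀ s, (ED (j (w ^ i.val * pD π e) : K)).LSeries s =
      (ED (j (sg b * (lam ^ 0 * (w ^ i.val * pD π e))) : K)).LSeries s := by
    intro s
    unfold WeierstrassCurve.LSeries
    rw [hL]
  refine ⟨⟨G, hG, fun s h => ?_⟩, fun ht => ?_⟩
  · rw [hL]
    exact ⟨(hs s h).1, ((hs s h).2).trans (hLS s)⟩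
  · obtain ⟨⟨-, h6, U, Lf, u1, u2, u3, u4, u5, u6, u7, u8⟩, -⟩ := h5 (htri.1 ht)
    have r0 : Module.finrank ℤ (ED (j (w ^ i.val * pD π e) : K)).toAffine.Point = 0 :=
      Pool.Agent.Y696.XK.finrank_fin _
    have := ht.1
    have r1 : Module.finrank ℤ
        (ED (j (sg b * (lam ^ 0 * (w ^ i.val * pD π e))) : K)).toAffine.Point = 0 :=
      Pool.Agent.Y696.XK.finrank_fin _
    refine ⟨⟨isUnit_iff_ne_zero.2 (disc_ED (jne j (ne_D hdt i b 0)))⟩, ht.1, U, Lf, u1, u2, u3, u4,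
      u5, fun s h => (u6 s h).trans (hLS s), fun r hr => ?_, ?_⟩
    · rw [r1] at hr
      exact absurd hr (Nat.not_lt_zero r)
    · rw [r1]
      rw [r0] at u8
      exact u8

end

end Pool.Agent.D0H10.KH
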