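import Pool.Agent.D0H10.KH.Rat

/-!
# All the cube-free Eisenstein integers

`D = ± √-3 ^ a z` with `a < 3` and `z` in the family `FamE` of the project FF.
-/

set_option autoImplicit false
set_option linter.unusedVariables false

open scoped Classical

namespace Pool.Agent.D0H10.KH

open Finset Filter Topology
open Pool.Agent.Y692.QS (Ei w nr toC nr_mul nr_nonneg)
open Pool.Agent.Y715.T.Gi (lam prime_lam lam_sq)
open Pool.Agent.N883.FF (ClP PP FamE fin_nr)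

/-- cube-free, and not a divisor of `3` -/
def CFam (D : Ei) : Prop := ¬ D ∣ 3 ∧ ∀ x : Ei, x ^ 3 ∣ D → IsUnit x

/-- the sign -/
def sg (b : Bool) : Ei := if b then 1 else -1

lemma sg_unit (b : Bool) : IsUnit (sg b) := by
  cases b
  · exact isUnit_one.neg
  · exact isUnit_one

lemma sg_mul (b : Bool) : sg b * sg b = 1 := by
  cases b <;> decide

lemma nr_sg (b : Bool) : nr (sg b) = 1 := by
  cases b <;> decide

lemma nr_lam : nr lam = 3 := by decide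

lemma nr_pow (x : Ei) (n : ℕ) : nr (x ^ n) = nr x ^ n := by
  induction n with
  | zero => rw [pow_zero, pow_zero]; decide
  | succ n ih => rw [pow_succ, nr_mul, ih, pow_succ]

lemma lam_dvd_three : lam ∣ (3 : Ei) := ⟨-lam, by
  have := lam_sq
  linear_combination this⟩

lemma three_eq : (3 : Ei) = -lam ^ 2 := by rw [lam_sq, neg_neg]

lemma three_dvd_iff {z : Ei} : (3 : Ei) ∣ z ↔ (3 : ℤ) ∣ z.re ∧ (3 : ℤ) ∣ z.im := by
  constructor
  · rintro ⟨t, rfl⟩
    have h1 : ((3 : Ei) * t).re = 3 * t.re := by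
      simp [QuadraticAlgebra.re_ofNat, QuadraticAlgebra.im_ofNat]
    have h2 : ((3 : Ei) * t).im = 3 * t.im := by
      simp [QuadraticAlgebra.re_ofNat, QuadraticAlgebra.im_ofNat]
    rw [h1, h2]
    exact ⟨dvd_mul_right _ _, dvd_mul_right _ _⟩
  · rintro ⟨⟨a, ha⟩, b, hb⟩
    refine ⟨⟨a, b⟩, ?_⟩
    apply QuadraticAlgebra.ext
    · simp [QuadraticAlgebra.re_ofNat, QuadraticAlgebra.im_ofNat, ha]
    · simp [QuadraticAlgebra.re_ofNat, QuadraticAlgebra.im_ofNat, hb]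

lemma lam_dvd_iff {z : Ei} : lam ∣ z ↔ (3 : ℤ) ∣ z.re + z.im := by
  constructor
  · rintro ⟨t, rfl⟩
    have e1 : (lam * t).re = t.re - 2 * t.im := by
      simp [lam]
      ring
    have e2 : (lam * t).im = 2 * t.re - t.im := by
      simp [lam]
      ring
    rw [e1, e2]
    exact ⟨t.re - t.im, by ring⟩
  · rintro ⟨k, hk⟩
    refine ⟨⟨-z.re + 2 * k, -z.re + k⟩, ?_⟩
    apply QuadraticAlgebra.ext
    · simp [lam]
      ring
    · simp [lam]
      linarith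

/-- the class modulo three -/
lemma cls {y : Ei} (h : ¬ lam ∣ y) : ∃ (b : Bool) (i : ZMod 3), (3 : Ei) ∣ sg b * y - w ^ i.val := by
  rw [lam_dvd_iff] at h
  have hw0 : (w : Ei) ^ (0 : ZMod 3).val = ⟨1, 0⟩ := by decide
  have hw1 : (w : Ei) ^ (1 : ZMod 3).val = ⟨0, 1⟩ := by decide
  have hw2 : (w : Ei) ^ (2 : ZMod 3).val = ⟨-1, -1⟩ := by decide
  obtain ⟨a, b⟩ := y
  simp only at h
  have e1 : sg true * (⟨a, b⟩ : Ei) = ⟨a, b⟩ := one_mul _
  have e2 : sg false * (⟨a, b⟩ : Ei) = ⟨-a, -b⟩ := by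
    show (-1 : Ei) * (⟨a, b⟩ : Ei) = ⟨-a, -b⟩
    rw [neg_one_mul]
    rfl
  have ha : a % 3 = 0 ∨ a % 3 = 1 ∨ a % 3 = 2 := by omega
  have hb : b % 3 = 0 ∨ b % 3 = 1 ∨ b % 3 = 2 := by omega
  have key : ∀ (s : Bool) (i : ZMod 3) (p q r t : ℤ), sg s * (⟨a, b⟩ : Ei) = ⟨p, q⟩ →
      (w : Ei) ^ i.val = ⟨r, t⟩ → (3 : ℤ) ∣ p - r → (3 : ℤ) ∣ q - t →
      ∃ (b' : Bool) (i : ZMod 3), (3 : Ei) ∣ sg b' * (⟨a, b⟩ : Ei) - w ^ i.val := by
    intro s i p q r t h1 h2 h3 h4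
    refine ⟨s, i, ?_⟩
    rw [h1, h2, three_dvd_iff]
    exact ⟨h3, h4⟩
  rcases ha with ha | ha | ha <;> rcases hb with hb | hb | hb
  · omega
  · exact key true 1 _ _ _ _ e1 hw1 (by omega) (by omega)
  · exact key false 1 _ _ _ _ e2 hw1 (by omega) (by omega)
  · exact key true 0 _ _ _ _ e1 hw0 (by omega) (by omega)
  · exact key false 2 _ _ _ _ e2 hw2 (by omega) (by omega)
  · omega
  · exact key false 0 _ _ _ _ e2 hw0 (by omega) (by omega)
  · omega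
  · exact key true 2 _ _ _ _ e1 hw2 (by omega) (by omega)

lemma fam_lam {z : Ei} (h : FamE z) : ¬ lam ∣ z := by
  obtain ⟨i, hi⟩ := h.2.2
  intro hl
  have h1 : lam ∣ w ^ i.val := by
    have := dvd_sub hl (lam_dvd_three.trans hi)
    rwa [sub_sub_cancel] at this
  have : ∀ i : ZMod 3, ¬ (3 : ℤ) ∣ ((w : Ei) ^ i.val).re + ((w : Ei) ^ i.val).im := by decide
  exact this i (lam_dvd_iff.1 h1)

/-- membership -/
lemma mem_cf (b : Bool) {a : ℕ} (ha : a < 3) {z : Ei} (hz : FamE z) :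
    CFam (sg b * (lam ^ a * z)) := by
  have hl := fam_lam hz
  have hz0 : z ≠ 0 := fun h => hl (h ▸ dvd_zero _)
  constructor
  · intro h
    have h1 : z ∣ 3 := (Dvd.intro_left _ rfl).trans ((Dvd.intro_left _ rfl).trans h)
    rw [three_eq, dvd_neg] at h1
    apply hz.1
    obtain ⟨k, hk, hass⟩ := (dvd_prime_pow prime_lam 2).1 h1
    rcases Nat.eq_zero_or_pos k with rfl | hk0
    · rw [pow_zero] at hass
      exact hass.isUnit_iff.2 isUnit_one
    · exfalso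
      apply hl
      exact (dvd_pow_self lam hk0.ne').trans hass.symm.dvd
  · intro x hx
    rw [(sg_unit b).dvd_mul_left] at hx
    by_contra hxu
    have hx0 : x ≠ 0 := by
      rintro rfl
      rw [zero_pow three_ne_zero, zero_dvd_iff] at hx
      exact mul_ne_zero (pow_ne_zero _ prime_lam.ne_zero) hz0 hx
    obtain ⟨ρ, hρ, hρx⟩ := WfDvdMonoid.exists_irreducible_factor hxu hx0
    have hρ' : Prime ρ := irreducible_iff_prime.1 hρ
    have h3 : ρ ^ 3 ∣ lam ^ a * z := (pow_dvd_pow_of_dvd hρx 3).trans hx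
    by_cases hρl : ρ ∣ lam
    · have hass : Associated ρ lam := hρ'.associated_of_dvd prime_lam hρl
      have h4 : lam ^ 3 ∣ lam ^ a * z := (hass.pow_pow.symm.dvd).trans h3
      obtain ⟨c, hc⟩ : ∃ c, 3 = a + (c + 1) := ⟨2 - a, by omega⟩
      rw [hc, pow_add] at h4
      have h5 := (mul_dvd_mul_iff_left (pow_ne_zero a prime_lam.ne_zero)).1 h4
      exact hl ((dvd_pow_self lam (Nat.succ_ne_zero c)).trans h5)
    · have hcop : IsCoprime (ρ ^ 3) (lam ^ a) :=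
        ((hρ.coprime_iff_not_dvd).2 hρl).pow
      have h4 : ρ ^ 3 ∣ z := hcop.dvd_of_dvd_mul_left h3
      exact hρ'.not_isUnit (hz.2.1 ρ h4)

/-- the decomposition -/
lemma dec {D : Ei} (hD : CFam D) : ∃ (b : Bool) (a : ℕ) (z : Ei), a < 3 ∧ FamE z ∧
    D = sg b * (lam ^ a * z) := by
  have h0 : D ≠ 0 := by
    rintro rfl
    have := hD.2 lam (dvd_zero _)
    exact prime_lam.not_isUnit this
  have h1 : ∃ a < 3, ∃ y, D = lam ^ a * y ∧ ¬ lam ∣ y := by
    by_cases h1 : lam ∣ D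
    · obtain ⟨y, rfl⟩ := h1
      by_cases h2 : lam ∣ y
      · obtain ⟨x, rfl⟩ := h2
        refine ⟨2, by norm_num, x, by ring, fun h3 => ?_⟩
        obtain ⟨t, rfl⟩ := h3
        exact prime_lam.not_isUnit (hD.2 lam ⟨t, by ring⟩)
      · exact ⟨1, by norm_num, y, by rw [pow_one], h2⟩
    · exact ⟨0, by norm_num, D, by rw [pow_zero, one_mul], h1⟩
  obtain ⟨a, ha, y, rfl, hy⟩ := h1
  obtain ⟨b, i, hi⟩ := cls hy
  refine ⟨b, a, sg b * y, ha, ⟨?_, ?_, i, hi⟩, ?_⟩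
  · intro hu
    apply hD.1
    have hyu : IsUnit y := isUnit_of_mul_isUnit_right hu
    rw [hyu.mul_right_dvd, three_eq, dvd_neg]
    exact pow_dvd_pow lam (by omega)
  · intro x hx
    rw [(sg_unit b).dvd_mul_left] at hx
    exact hD.2 x (hx.mul_left _)
  · have := sg_mul b
    linear_combination (-(lam ^ a * y)) * this

lemma uniq {b b' : Bool} {a a' : ℕ} {z z' : Ei} (hz : FamE z) (hz' : FamE z')
    (h : sg b * (lam ^ a * z) = sg b' * (lam ^ a' * z')) : b = b' ∧ a = a' ∧ z = z' := by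
  have hl := fam_lam hz
  have hl' := fam_lam hz'
  have key : ∀ {b b' : Bool} {a a' : ℕ} {z z' : Ei}, ¬ lam ∣ z → sg b * (lam ^ a * z) =
      sg b' * (lam ^ a' * z') → a' ≤ a := by
    intro b b' a a' z z' hl h
    by_contra hlt
    push Not at hlt
    obtain ⟨c, rfl⟩ : ∃ c, a' = a + (c + 1) := ⟨a' - a - 1, by omega⟩
    have h1 : lam ^ a * z = lam ^ a * (lam * (sg b * sg b' * lam ^ c * z')) := by
      have h2 := sg_mul b
      have h3 : sg b * (sg b * (lam ^ a * z)) = sg b * (sg b' * (lam ^ (a + (c + 1)) * z')) := by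
        rw [h]
      rw [← mul_assoc, h2, one_mul] at h3
      rw [h3]
      ring
    have h2 := mul_left_cancel₀ (pow_ne_zero a prime_lam.ne_zero) h1
    exact hl ⟨_, h2⟩
  have haa : a = a' := le_antisymm (key hl' h.symm) (key hl h)
  subst haa
  obtain ⟨i, hi⟩ := hz.2.2
  obtain ⟨k, hk⟩ := hz'.2.2
  have h1 : sg b * z = sg b' * z' := by
    refine mul_left_cancel₀ (pow_ne_zero a prime_lam.ne_zero) ?_
    linear_combination h
  have h2 : (3 : Ei) ∣ sg b * w ^ i.val - sg b' * w ^ k.val := by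
    have e : sg b * w ^ i.val - sg b' * w ^ k.val =
        sg b' * (z' - w ^ k.val) - sg b * (z - w ^ i.val) := by linear_combination h1
    rw [e]
    exact dvd_sub (hk.mul_left _) (hi.mul_left _)
  have h3 : b = b' := by
    by_contra hb
    have : ∀ (b b' : Bool) (i k : ZMod 3), b ≠ b' →
        ¬ (9 : ℤ) ∣ nr (sg b * w ^ i.val - sg b' * w ^ k.val) := by decide
    refine this b b' i k hb ?_
    obtain ⟨t, ht⟩ := h2
    rw [ht, nr_mul]
    exact Dvd.dvd.mul_right (by decide) _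
  subst h3
  exact ⟨rfl, rfl, mul_left_cancel₀ (sg_unit b).ne_zero h1⟩

lemma nr_elt (b : Bool) (a : ℕ) (z : Ei) : nr (sg b * (lam ^ a * z)) = 3 ^ a * nr z := by
  rw [nr_mul, nr_mul, nr_pow, nr_sg, nr_lam, one_mul]

lemma nr_le_iff (b : Bool) (a : ℕ) (z : Ei) (X : ℕ) :
    nr (sg b * (lam ^ a * z)) ≤ X ↔ nr z ≤ ((X / 3 ^ a : ℕ) : ℤ) := by
  rw [nr_elt]
  push_cast
  rw [Int.le_ediv_iff_mul_le (by positivity), mul_comm]

/-- the number of the elements of the family -/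
theorem count (T : Ei → Prop) (X : ℕ) : {D : Ei | nr D ≤ X ∧ CFam D ∧ T D}.ncard =
    ∑ p : Fin 3 × Bool, {z : Ei | nr z ≤ ((X / 3 ^ p.1.val : ℕ) : ℤ) ∧ FamE z ∧
      T (sg p.2 * (lam ^ p.1.val * z))}.ncard := by
  have h1 : ∀ p : Fin 3 × Bool, {z : Ei | nr z ≤ ((X / 3 ^ p.1.val : ℕ) : ℤ) ∧ FamE z ∧
      T (sg p.2 * (lam ^ p.1.val * z))}.ncard =
      ((fun z : Ei => sg p.2 * (lam ^ p.1.val * z)) ''
        {z : Ei | nr z ≤ ((X / 3 ^ p.1.val : ℕ) : ℤ) ∧ FamE z ∧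
          T (sg p.2 * (lam ^ p.1.val * z))}).ncard := by
    intro p
    rw [Set.ncard_image_of_injective]
    intro a b hab
    exact mul_left_cancel₀ (pow_ne_zero _ prime_lam.ne_zero)
      (mul_left_cancel₀ (sg_unit _).ne_zero hab)
  have hfin : ∀ p : Fin 3 × Bool, ((fun z : Ei => sg p.2 * (lam ^ p.1.val * z)) ''
        {z : Ei | nr z ≤ ((X / 3 ^ p.1.val : ℕ) : ℤ) ∧ FamE z ∧
          T (sg p.2 * (lam ^ p.1.val * z))}).Finite := by
    intro p
    exact ((fin_nr _).subset fun z hz => hz.1).image _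
  have h2 : {D : Ei | nr D ≤ X ∧ CFam D ∧ T D} = ⋃ p : Fin 3 × Bool,
      ((fun z : Ei => sg p.2 * (lam ^ p.1.val * z)) ''
        {z : Ei | nr z ≤ ((X / 3 ^ p.1.val : ℕ) : ℤ) ∧ FamE z ∧
          T (sg p.2 * (lam ^ p.1.val * z))}) := by
    ext D
    simp only [Set.mem_iUnion, Set.mem_image]
    constructor
    · rintro ⟨a1, a2, a3⟩
      obtain ⟨b, a, z, ha, hz, rfl⟩ := dec a2
      exact ⟨(⟨a, ha⟩, b), z, ⟨(nr_le_iff b a z X).1 a1, hz, a3⟩, rfl⟩
    · rintro ⟨p, z, ⟨a1, a2, a3⟩, rfl⟩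
      exact ⟨(nr_le_iff _ _ z X).2 a1, mem_cf _ p.1.isLt a2, a3⟩
  rw [h2]
  simp only [h1]
  have hdis : Pairwise (Function.onFun Disjoint fun p : Fin 3 × Bool =>
      ((fun z : Ei => sg p.2 * (lam ^ p.1.val * z)) ''
        {z : Ei | nr z ≤ ((X / 3 ^ p.1.val : ℕ) : ℤ) ∧ FamE z ∧
          T (sg p.2 * (lam ^ p.1.val * z))})) := by
    intro p q hpq
    show Disjoint _ _
    rw [Set.disjoint_left]
    rintro D ⟨z, hz, rfl⟩ ⟨y, hy, hyz⟩
    obtain ⟨k1, k2, -⟩ := uniq hy.2.1 hz.2.1 hyz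
    exact hpq (Prod.ext (Fin.ext k2.symm) k1.symm)
  rw [Set.ncard_iUnion_of_finite hfin hdis, finsum_eq_sum_of_fintype]

/-- the count for a property that does not depend on the sign -/
theorem count' (T : Ei → Prop) (S : ℕ → Ei → Prop)
    (hT : ∀ (b : Bool) (a : ℕ) (z : Ei), a < 3 → FamE z → (T (sg b * (lam ^ a * z)) ↔ S a z))
    (X : ℕ) : {D : Ei | nr D ≤ X ∧ CFam D ∧ T D}.ncard =
    2 * ({z : Ei | nr z ≤ (X : ℤ) ∧ FamE z ∧ S 0 z}.ncard +
      {z : Ei | nr z ≤ ((X / 3 : ℕ) : ℤ) ∧ FamE z ∧ S 1 z}.ncard +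
      {z : Ei | nr z ≤ ((X / 3 / 3 : ℕ) : ℤ) ∧ FamE z ∧ S 2 z}.ncard) := by
  rw [count]
  have h1 : ∀ p : Fin 3 × Bool, {z : Ei | nr z ≤ ((X / 3 ^ p.1.val : ℕ) : ℤ) ∧ FamE z ∧
      T (sg p.2 * (lam ^ p.1.val * z))} =
      {z : Ei | nr z ≤ ((X / 3 ^ p.1.val : ℕ) : ℤ) ∧ FamE z ∧ S p.1.val z} := by
    intro p
    ext z
    exact and_congr_right fun _ => and_congr_right fun hz => hT p.2 p.1.val z p.1.isLt hz
  simp only [h1]
  rw [Fintype.sum_prod_type]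
  simp only [Finset.sum_const, Fin.sum_univ_three]
  have h2 : X / 3 ^ 0 = X := by simp
  have h3 : X / 3 ^ 1 = X / 3 := by simp
  have h4 : X / 3 ^ 2 = X / 3 / 3 := by rw [Nat.div_div_eq_div_mul]; rfl
  have h5 : (Finset.univ : Finset Bool).card = 2 := rfl
  simp only [Fin.val_zero, Fin.val_one, Fin.val_two, h2, h3, h4, h5, smul_eq_mul]
  ring

end Pool.Agent.D0H10.KH
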