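import Pool.Agent.D0H10.KH.Cls
import Pool.Agent.D0H10.L9D.Fam
import Pool.Agent.D0H69.L3K.Fam

/-!
# The proportion among all cube-free `D`
-/

set_option autoImplicit false
set_option linter.unusedVariables false
set_option linter.unusedSectionVars false

open scoped Classical

namespace Pool.Agent.D0H10.KH

open NumberField Filter Topology
open Pool.Agent.Y692.QS (Ei w nr toC nr_mul)
open Pool.Agent.Y703.CT
open Pool.Agent.Y703.XK (c9)
open Pool.Agent.Y715.T.Gi (lam prime_lam lam_sq)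
open Pool.Agent.Y696.CTK (Tri ED)
open Pool.Agent.Y696.XK (RkZ img_ncard)
open Pool.Agent.N883.FF (ClP PP FamE NxE FamK NxK fam_data pB card_all den3 PP_top asyB partsB
  lim_fam hc9 fin_nr famK_iff nxK_iff)
open Pool.Agent.R419.KF (EntL)

/-- the number of the elements of the family `FamE` -/
noncomputable def FC (X : ℕ) : ℕ := {z : Ei | nr z ≤ X ∧ FamE z}.ncard

lemma fc_eq {X : ℕ} (hX : 1 ≤ X) : (FC X : ℝ) = 3 * ((PP X : ℝ) - 1) := card_all X hX

lemma fc_top : Tendsto (fun X : ℕ => (FC X : ℝ)) atTop atTop := by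
  have h1 : Tendsto (fun X : ℕ => 3 * ((PP X : ℝ) - 1)) atTop atTop :=
    (tendsto_atTop_add_const_right _ (-1) (PP_top den3)).const_mul_atTop (by norm_num)
  refine h1.congr' ?_
  filter_upwards [eventually_ge_atTop 1] with X hX
  exact (fc_eq hX).symm

lemma div3_top : Tendsto (fun X : ℕ => X / 3) atTop atTop :=
  Nat.tendsto_div_const_atTop (by norm_num)

lemma fc_ratio : Tendsto (fun X : ℕ => (FC (X / 3) : ℝ) / (FC X : ℝ)) atTop (𝓝 (1 / 3)) := by
  have h0 : Tendsto (fun X => 1 / (PP X : ℝ)) atTop (𝓝 0) := by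
    simp only [one_div]
    exact tendsto_inv_atTop_zero.comp (PP_top den3)
  have h1 : Tendsto (fun X : ℕ => ((PP (X / 3) : ℝ) / (PP X : ℝ) - 1 / (PP X : ℝ)) /
      (1 - 1 / (PP X : ℝ))) atTop (𝓝 ((1 / 3 - 0) / (1 - 0))) :=
    (ratio.sub h0).div (tendsto_const_nhds.sub h0) (by norm_num)
  have e1 : ((1 / 3 - 0) / (1 - 0) : ℝ) = 1 / 3 := by norm_num
  rw [e1] at h1
  refine h1.congr' ?_
  filter_upwards [(PP_top den3).eventually_gt_atTop 1, eventually_ge_atTop 3] with X hX hX3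
  have h2 : 1 ≤ X / 3 := (Nat.one_le_div_iff (by norm_num)).2 hX3
  rw [fc_eq h2, fc_eq (by omega)]
  have h3 : (PP X : ℝ) ≠ 0 := by linarith
  have h4 : (PP X : ℝ) - 1 ≠ 0 := by linarith
  have h5 : 1 - 1 / (PP X : ℝ) ≠ 0 := by
    rw [Ne, sub_eq_zero, eq_div_iff h3]
    intro h
    apply h4
    linarith
  field_simp

/-- the combination of the three classes -/
lemma lim3 {G0 G1 G2 : ℕ → ℕ} {α β γ : ℝ}
    (h0 : Tendsto (fun X : ℕ => (G0 X : ℝ) / (FC X : ℝ)) atTop (𝓝 α))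
    (h1 : Tendsto (fun X : ℕ => (G1 X : ℝ) / (FC X : ℝ)) atTop (𝓝 β))
    (h2 : Tendsto (fun X : ℕ => (G2 X : ℝ) / (FC X : ℝ)) atTop (𝓝 γ)) :
    Tendsto (fun X : ℕ => ((2 * (G0 X + G1 (X / 3) + G2 (X / 3 / 3)) : ℕ) : ℝ) /
      ((2 * (FC X + FC (X / 3) + FC (X / 3 / 3)) : ℕ) : ℝ)) atTop
      (𝓝 ((α + β / 3 + γ / 9) / (13 / 9))) := by
  have r1 := fc_ratio
  have r2 : Tendsto (fun X : ℕ => (FC (X / 3 / 3) : ℝ) / (FC X : ℝ)) atTop (𝓝 (1 / 9)) := by
    have h3 := (fc_ratio.comp div3_top).mul fc_ratio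
    have e : (1 / 3 * (1 / 3) : ℝ) = 1 / 9 := by norm_num
    rw [e] at h3
    refine h3.congr' ?_
    filter_upwards [(fc_top.comp div3_top).eventually_gt_atTop 0] with X hX
    have hX' : (0 : ℝ) < (FC (X / 3) : ℝ) := hX
    simp only [Function.comp_apply]
    rw [div_mul_div_comm, mul_comm (FC (X / 3) : ℝ), mul_div_mul_right _ _ hX'.ne']
  have g1 : Tendsto (fun X : ℕ => (G1 (X / 3) : ℝ) / (FC X : ℝ)) atTop (𝓝 (β / 3)) := by
    have h3 := (h1.comp div3_top).mul r1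
    have e : (β * (1 / 3) : ℝ) = β / 3 := by ring
    rw [e] at h3
    refine h3.congr' ?_
    filter_upwards [(fc_top.comp div3_top).eventually_gt_atTop 0] with X hX
    have hX' : (0 : ℝ) < (FC (X / 3) : ℝ) := hX
    simp only [Function.comp_apply]
    rw [div_mul_div_comm, mul_comm (FC (X / 3) : ℝ), mul_div_mul_right _ _ hX'.ne']
  have g2 : Tendsto (fun X : ℕ => (G2 (X / 3 / 3) : ℝ) / (FC X : ℝ)) atTop (𝓝 (γ / 9)) := by
    have h3 := ((h2.comp div3_top).comp div3_top).mul r2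
    have e : (γ * (1 / 9) : ℝ) = γ / 9 := by ring
    rw [e] at h3
    refine h3.congr' ?_
    filter_upwards [((fc_top.comp div3_top).comp div3_top).eventually_gt_atTop 0] with X hX
    have hX' : (0 : ℝ) < (FC (X / 3 / 3) : ℝ) := hX
    simp only [Function.comp_apply]
    rw [div_mul_div_comm, mul_comm (FC (X / 3 / 3) : ℝ), mul_div_mul_right _ _ hX'.ne']
  have hfin : Tendsto (fun X : ℕ => ((G0 X : ℝ) / (FC X : ℝ) + (G1 (X / 3) : ℝ) / (FC X : ℝ) +
      (G2 (X / 3 / 3) : ℝ) / (FC X : ℝ)) / (1 + (FC (X / 3) : ℝ) / (FC X : ℝ) +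
        (FC (X / 3 / 3) : ℝ) / (FC X : ℝ))) atTop
      (𝓝 ((α + β / 3 + γ / 9) / (1 + 1 / 3 + 1 / 9))) :=
    ((h0.add g1).add g2).div ((tendsto_const_nhds.add r1).add r2) (by norm_num)
  have e : (1 + 1 / 3 + 1 / 9 : ℝ) = 13 / 9 := by norm_num
  rw [e] at hfin
  refine hfin.congr' ?_
  filter_upwards [fc_top.eventually_gt_atTop 0] with X hX
  have hX' : (FC X : ℝ) ≠ 0 := hX.ne'
  push_cast
  rw [← add_div, ← add_div, ← div_self hX', ← add_div, ← add_div, div_div_div_cancel_right₀ hX',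
    mul_div_mul_left _ _ (two_ne_zero)]

/-- the number of all elements of the family `CFam` -/
lemma card_cfam (X : ℕ) : {D : Ei | nr D ≤ X ∧ CFam D}.ncard =
    2 * (FC X + FC (X / 3) + FC (X / 3 / 3)) := by
  have h := count' (fun _ => True) (fun _ _ => True) (fun _ _ _ _ _ => Iff.rfl) X
  simp only [and_true] at h
  exact h

/-! ### the exceptional class -/

/-- `D ^ 2 = 1` modulo `√-3 ^ 3` -/
def ExcE (D : Ei) : Prop := lam ^ 3 ∣ D ^ 2 - 1

lemma fam_sum {z : Ei} (hz : FamE z) : (3 : ℤ) ∣ z.re + z.im - 1 := by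
  obtain ⟨i, hi⟩ := hz.2.2
  have hw : ∀ i : ZMod 3, (3 : ℤ) ∣ ((w : Ei) ^ i.val).re + ((w : Ei) ^ i.val).im - 1 := by decide
  have h1 := hw i
  rw [three_dvd_iff] at hi
  have e1 : (z - w ^ i.val).re = z.re - ((w : Ei) ^ i.val).re := rfl
  have e2 : (z - w ^ i.val).im = z.im - ((w : Ei) ^ i.val).im := rfl
  rw [e1, e2] at hi
  omega

lemma nr_one_add (t : Ei) : nr (1 + 3 * t) = 1 + 3 * (2 * t.re - t.im) + 9 * nr t := by
  have h1 : (1 + 3 * t : Ei).re = 1 + 3 * t.re := by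
    simp [QuadraticAlgebra.re_ofNat, QuadraticAlgebra.im_ofNat]
    rfl
  have h2 : (1 + 3 * t : Ei).im = 3 * t.im := by
    simp [QuadraticAlgebra.re_ofNat, QuadraticAlgebra.im_ofNat]
    rfl
  unfold Pool.Agent.Y692.QS.nr
  rw [h1, h2]
  ring

lemma exc_iff {z : Ei} (hz : FamE z) (b : Bool) : ExcE (sg b * (lam ^ 0 * z)) ↔ ¬ NxE z := by
  have hs := fam_sum hz
  have e0 : (sg b * (lam ^ 0 * z)) ^ 2 - 1 = (z + 1) * (z - 1) := by
    have := sg_mul b
    linear_combination z ^ 2 * this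
  unfold ExcE NxE
  rw [not_not, e0]
  have hcop : IsCoprime (lam ^ 3) (z + 1) := by
    refine IsCoprime.pow_left ((prime_lam.irreducible.coprime_iff_not_dvd).2 fun h => ?_)
    rw [lam_dvd_iff] at h
    have e1 : (z + 1).re = z.re + 1 := rfl
    have e2 : (z + 1).im = z.im + 0 := rfl
    rw [e1, e2] at h
    omega
  have h3 : (lam : Ei) ^ 3 = -(3 * lam) := by decide
  constructor
  · intro h
    have h4 := hcop.dvd_of_dvd_mul_left h
    rw [h3, neg_dvd] at h4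
    obtain ⟨t, ht⟩ := h4
    refine ⟨⟨lam * t, by rw [ht]; ring⟩, ?_⟩
    have h5 : z = 1 + 3 * (lam * t) := by linear_combination ht
    have h6 : (3 : ℤ) ∣ (lam * t).re + (lam * t).im := lam_dvd_iff.1 (dvd_mul_right _ _)
    rw [h5, nr_one_add]
    omega
  · rintro ⟨⟨t, ht⟩, h9⟩
    have h5 : z = 1 + 3 * t := by linear_combination ht
    rw [h5, nr_one_add] at h9
    have h6 : lam ∣ t := lam_dvd_iff.2 (by omega)
    obtain ⟨s, rfl⟩ := h6
    rw [ht, h3]
    exact ⟨-((z + 1) * s), by ring⟩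

lemma exc_no (b : Bool) {a : ℕ} (ha : a ≠ 0) (z : Ei) : ¬ ExcE (sg b * (lam ^ a * z)) := by
  intro h
  have h1 : lam ∣ sg b * (lam ^ a * z) :=
    ((dvd_pow_self lam ha).mul_right _).mul_left _
  have h2 : lam ∣ (sg b * (lam ^ a * z)) ^ 2 := h1.trans (dvd_pow_self _ two_ne_zero)
  have h3 : lam ∣ (sg b * (lam ^ a * z)) ^ 2 - 1 := (dvd_pow_self lam three_ne_zero).trans h
  have h4 := dvd_sub h2 h3
  rw [sub_sub_cancel] at h4
  exact prime_lam.not_isUnit (isUnit_of_dvd_one h4)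

section
variable {K : Type} [Field K] [NumberField K] (j : Ei ≃+* 𝓞 K)

/-- the property in the three classes -/
def SS (a : ℕ) (z : Ei) : Prop := (a = 0 → NxE z) ∧ Tri (j (sg true * (lam ^ a * z)))

lemma nx_i {i : ZMod 3} {n : ℕ} {π : Fin n → Ei} {e : Fin n → ZMod 3} (hdt : Dt π e)
    (h : NxE (w ^ i.val * pD π e)) : i = 0 → ¬ (9 : ℤ) ∣ nr (pD π e) - 1 := by
  rintro rfl
  exact Pool.Agent.N883.FF.nx_nine hdt h

lemma hTS (b : Bool) (a : ℕ) (z : Ei) (ha : a < 3) (hz : FamE z) :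
    ((¬ ExcE (sg b * (lam ^ a * z)) ∧ Tri (j (sg b * (lam ^ a * z)))) ↔ SS j a z) := by
  obtain ⟨i, n, π, e, hdt, rfl⟩ := fam_data hz
  unfold SS
  have hpB : pB π e i = w ^ i.val * pD π e := rfl
  rw [hpB] at hz ⊢
  interval_cases a
  · rw [exc_iff hz b, not_not]
    constructor
    · rintro ⟨h1, h2⟩
      refine ⟨fun _ => h1, ?_⟩
      have h9 := nx_i hdt h1
      exact (tri0 j hdt i h9 true).2 ((tri0 j hdt i h9 b).1 h2)
    · rintro ⟨h1, h2⟩
      have h1' := h1 rfl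
      refine ⟨h1', ?_⟩
      have h9 := nx_i hdt h1'
      exact (tri0 j hdt i h9 b).2 ((tri0 j hdt i h9 true).1 h2)
  · constructor
    · rintro ⟨-, h2⟩
      exact ⟨fun h => absurd h one_ne_zero, (tri9 j hdt i true).2 ((tri9 j hdt i b).1 h2)⟩
    · rintro ⟨-, h2⟩
      exact ⟨exc_no b one_ne_zero _, (tri9 j hdt i b).2 ((tri9 j hdt i true).1 h2)⟩
  · constructor
    · rintro ⟨-, h2⟩
      exact ⟨fun h => absurd h two_ne_zero, (tri3 j hdt i true).2 ((tri3 j hdt i b).1 h2)⟩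
    · rintro ⟨-, h2⟩
      exact ⟨exc_no b two_ne_zero _, (tri3 j hdt i b).2 ((tri3 j hdt i true).1 h2)⟩

lemma sgt (z : Ei) : sg true * z = z := one_mul z

/-- the class of the `D` prime to three -/
lemma lim0 [IsCyclotomicExtension {3} ℚ K] (hj : ∀ z : Ei, Algebra.norm ℤ (j z) = nr z) :
    Tendsto (fun X : ℕ => ({z : Ei | nr z ≤ X ∧ FamE z ∧ SS j 0 z}.ncard : ℝ) / (FC X : ℝ)) atTop
      (𝓝 (8 / 9 * c9)) := by
  have h := lim_fam j hj partsB asyB (Pool.Agent.N883.FF.tot hc9 Pool.Agent.Y550.XK.NS.t_LOW) den3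
  have e : ∀ X : ℕ, {z : Ei | nr z ≤ X ∧ FamE z ∧ SS j 0 z} =
      {D : Ei | nr D ≤ X ∧ FamE D ∧ (NxE D ∧ Tri (j D))} := by
    intro X
    ext z
    refine and_congr_right fun _ => and_congr_right fun _ => ?_
    unfold SS
    rw [sgt, pow_zero, one_mul]
    exact ⟨fun h => ⟨h.1 rfl, h.2⟩, fun h => ⟨fun _ => h.1, h.2⟩⟩
  simp only [e]
  exact h

lemma lim1 : Tendsto (fun X : ℕ => ({z : Ei | nr z ≤ X ∧ FamE z ∧ SS j 1 z}.ncard : ℝ) /
    (FC X : ℝ)) atTop (𝓝 c9) := by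
  refine Pool.Agent.D0H10.L9D.denkn_fam (SS j 1) fun i n π e hdt => ?_
  unfold SS
  rw [tri9 j hdt i true]
  exact ⟨fun h => h.2, fun h => ⟨fun h => absurd h one_ne_zero, h⟩⟩

lemma lim2 : Tendsto (fun X : ℕ => ({z : Ei | nr z ≤ X ∧ FamE z ∧ SS j 2 z}.ncard : ℝ) /
    (FC X : ℝ)) atTop (𝓝 c9) := by
  refine Pool.Agent.D0H69.L3K.denk_fam (SS j 2) fun i n π e hdt => ?_
  unfold SS
  rw [tri3 j hdt i true]
  exact ⟨fun h => h.2, fun h => ⟨fun h => absurd h two_ne_zero, h⟩⟩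

/-- **The proportion among all cube-free elements.** -/
theorem lim_all [IsCyclotomicExtension {3} ℚ K] (hj : ∀ z : Ei, Algebra.norm ℤ (j z) = nr z) :
    Tendsto (fun X : ℕ =>
      ({D : Ei | nr D ≤ X ∧ CFam D ∧ (¬ ExcE D ∧ Tri (j D))}.ncard : ℝ) /
        ({D : Ei | nr D ≤ X ∧ CFam D}.ncard : ℝ)) atTop (𝓝 (12 / 13 * c9)) := by
  have h := lim3 (lim0 j hj) (lim1 j) (lim2 j)
  have e : (8 / 9 * c9 + c9 / 3 + c9 / 9) / (13 / 9) = 12 / 13 * c9 := by ring
  rw [e] at h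
  refine h.congr fun X => ?_
  rw [card_cfam, count' (fun D => ¬ ExcE D ∧ Tri (j D)) (SS j) (hTS j) X]

/-- the classes of the `D` divisible exactly once or twice by `√-3` -/
theorem lim_cls (a : ℕ) (ha : a = 1 ∨ a = 2) : Tendsto (fun X : ℕ =>
      ({D : Ei | nr D ≤ X ∧ CFam D ∧ ((lam ^ a ∣ D ∧ ¬ lam ^ (a + 1) ∣ D) ∧ Tri (j D))}.ncard : ℝ) /
        ({D : Ei | nr D ≤ X ∧ CFam D ∧ (lam ^ a ∣ D ∧ ¬ lam ^ (a + 1) ∣ D)}.ncard : ℝ)) atTop
          (𝓝 c9) := by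
  have hex : ∀ (b : Bool) (a' : ℕ) (z : Ei), FamE z →
      ((lam ^ a ∣ sg b * (lam ^ a' * z) ∧ ¬ lam ^ (a + 1) ∣ sg b * (lam ^ a' * z)) ↔ a' = a) := by
    intro b a' z hz
    have hl := fam_lam hz
    have key : ∀ m : ℕ, lam ^ m ∣ sg b * (lam ^ a' * z) ↔ m ≤ a' := by
      intro m
      rw [(sg_unit b).dvd_mul_left]
      constructor
      · intro h
        by_contra hlt
        push Not at hlt
        obtain ⟨c, rfl⟩ : ∃ c, m = a' + (c + 1) := ⟨m - a' - 1, by omega⟩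
        rw [pow_add] at h
        have h5 := (mul_dvd_mul_iff_left (pow_ne_zero a' prime_lam.ne_zero)).1 h
        exact hl ((dvd_pow_self lam (Nat.succ_ne_zero c)).trans h5)
      · exact fun h => (pow_dvd_pow lam h).mul_right _
    rw [key, key]
    omega
  have hc := count' (fun D => (lam ^ a ∣ D ∧ ¬ lam ^ (a + 1) ∣ D)) (fun a' _ => a' = a)
    (fun b a' z _ hz => hex b a' z hz)
  have hn := count' (fun D => (lam ^ a ∣ D ∧ ¬ lam ^ (a + 1) ∣ D) ∧ Tri (j D))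
    (fun a' z => a' = a ∧ SS j a' z) (fun b a' z ha' hz => by
      rw [hex b a' z hz]
      refine and_congr_right fun h => ?_
      rw [← hTS j b a' z ha' hz]
      refine ⟨fun h2 => ⟨exc_no b (by omega) z, h2⟩, fun h2 => h2.2⟩)
  simp only [hc, hn]
  rcases ha with rfl | rfl
  · refine ((lim1 j).comp div3_top).congr fun X => ?_
    simp only [Function.comp_apply, false_and, and_false, true_and,
      Set.ofPred_false, Set.ncard_empty, zero_add, add_zero, and_true, OfNat.ofNat_ne_one,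
      zero_ne_one]
    push_cast
    rw [mul_div_mul_left _ _ (two_ne_zero)]
    rfl
  · refine (((lim2 j).comp div3_top).comp div3_top).congr fun X => ?_
    simp only [Function.comp_apply, false_and, and_false, true_and,
      Set.ofPred_false, Set.ncard_empty, zero_add, add_zero, and_true,
      OfNat.zero_ne_ofNat, OfNat.one_ne_ofNat]
    push_cast
    rw [mul_div_mul_left _ _ (two_ne_zero)]
    rfl

end

end Pool.Agent.D0H10.KH
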