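import Pool.Agent.N883.FF.Lim

/-!
# The number of the cube-free primary Eisenstein integers of norm at most `X / 3`

divided by the number of those of norm at most `X` tends to `1 / 3`.
-/

set_option autoImplicit false
set_option linter.unusedVariables false

open scoped Classical

namespace Pool.Agent.D0H10.KH

open Finset Filter Topology
open Pool.Agent.Y692.QS (Ei w nr toC nr_mul nr_nonneg)
open Pool.Agent.Y699.E (ez nrm QB ZB mem_ZB mem_QB nrm_cast nrm_eq' nrm_mul nrm_ne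
  sum_ZB dvd_nrm)
open Pool.Agent.Y715.T.Gi (lam)
open Pool.Agent.N883.FF (ClP PP den3 S_DEN3)
open Pool.Agent.N883.FF.Den3 (G q0 CF CF_sub diff_card prm_per nine_ne q0_ne card_CF nine_three)

/-- the number of the elements of a periodic set -/
theorem per_count (A : Ei → Prop) {N : ℕ} (hN : 0 < N)
    (h1 : ∀ x y : ℤ, A ⟨x + N, y⟩ ↔ A ⟨x, y⟩) (h2 : ∀ x y : ℤ, A ⟨x, y + N⟩ ↔ A ⟨x, y⟩) :
    ∃ δ : ℝ, 0 ≤ δ ∧ δ ≤ 1 ∧
      δ * (N : ℝ) ^ 2 = ∑ i ∈ range N, ∑ j ∈ range N, (if A ⟨(i : ℤ), (j : ℤ)⟩ then (1 : ℝ) else 0) ∧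
      ∀ V : ℕ, |(((ZB V).filter A).card : ℝ) - δ * ((ZB V).card : ℝ)| ≤
        3 * N * (3 * Real.sqrt V + 1) := by
  have hNr : (0 : ℝ) < N := by exact_mod_cast hN
  set s : ℝ := ∑ i ∈ range N, ∑ j ∈ range N, (if A ⟨(i : ℤ), (j : ℤ)⟩ then (1 : ℝ) else 0) with hs
  have hs0 : 0 ≤ s := sum_nonneg fun i _ => sum_nonneg fun j _ => by split_ifs <;> norm_num
  have hs1 : s ≤ (N : ℝ) ^ 2 := by
    have h3 : s ≤ ∑ i ∈ range N, ∑ j ∈ range N, (1 : ℝ) :=
      sum_le_sum fun i _ => sum_le_sum fun j _ => by split_ifs <;> norm_num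
    refine h3.trans (le_of_eq ?_)
    simp only [sum_const, card_range, nsmul_eq_mul, mul_one]
    ring
  set δ : ℝ := s / (N : ℝ) ^ 2 with hδ
  have hδ0 : 0 ≤ δ := by positivity
  have hδ1 : δ ≤ 1 := by
    rw [hδ, div_le_one (by positivity)]
    exact hs1
  have hδN : δ * (N : ℝ) ^ 2 = s := by
    rw [hδ]
    field_simp
  refine ⟨δ, hδ0, hδ1, hδN, fun V => ?_⟩
  set f : ℤ → ℤ → ℂ := fun x y => (((if A ⟨x, y⟩ then (1 : ℝ) else 0) - δ : ℝ) : ℂ) with hf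
  have hb := Pool.Agent.Y699.E.Lat.ell_bound (f := f) hN
    (fun x y => by simp only [hf, h1]) (fun x y => by simp only [hf, h2]) ?_ ?_ V
  · have e1 : ∑ p ∈ Pool.Agent.Y699.E.Lat.ell V, f p.1 p.2 =
        (((((ZB V).filter A).card : ℝ) - δ * ((ZB V).card : ℝ) : ℝ) : ℂ) := by
      have e2 := sum_ZB V (fun a => (((if A a then (1 : ℝ) else 0) - δ : ℝ) : ℂ))
      have e3 : ∑ p ∈ Pool.Agent.Y699.E.Lat.ell V, f p.1 p.2 =
        ∑ a ∈ ZB V, (((if A a then (1 : ℝ) else 0) - δ : ℝ) : ℂ) := e2.symm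
      rw [e3, ← Complex.ofReal_sum, sum_sub_distrib, sum_const, nsmul_eq_mul, sum_boole]
      congr 1
      ring
    rw [e1, Complex.norm_real, Real.norm_eq_abs] at hb
    exact hb
  · have e3 : ∑ i ∈ range N, ∑ j ∈ range N, f i j = ((s - δ * (N : ℝ) ^ 2 : ℝ) : ℂ) := by
      have e4 : ∀ i ∈ range N, ∑ j ∈ range N, f i j =
          ((∑ j ∈ range N, ((if A ⟨(i : ℤ), (j : ℤ)⟩ then (1 : ℝ) else 0) - δ) : ℝ) : ℂ) := by
        intro i _
        rw [Complex.ofReal_sum]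
      rw [sum_congr rfl e4, ← Complex.ofReal_sum]
      congr 1
      simp only [sum_sub_distrib, sum_const, card_range, nsmul_eq_mul, hs]
      ring
    rw [e3, hδN, sub_self, Complex.ofReal_zero]
  · intro x y
    rw [hf, Complex.norm_real, Real.norm_eq_abs, abs_le]
    split_ifs
    · constructor <;> linarith
    · constructor <;> linarith

lemma nrm_lam : nrm lam = 3 := by
  have h : (nrm lam : ℤ) = 3 := by
    rw [nrm_cast]
    decide
  exact_mod_cast h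

lemma lam_ne : lam ≠ 0 := by decide

/-- the multiples of `√-3` -/
lemma card_third (A : Ei → Prop) (hA : ∀ a, A a ↔ (3 : ℤ) ∣ a.re + a.im) (V : ℕ) :
    (ZB (V / 3)).card = ((ZB V).filter A).card := by
  have e1 : ∀ a : Ei, (lam * a).re = a.re - 2 * a.im := by
    intro a
    simp [lam]
    ring
  have e2 : ∀ a : Ei, (lam * a).im = 2 * a.re - a.im := by
    intro a
    simp [lam]
    ring
  refine card_bij (fun a _ => lam * a) ?_ ?_ ?_
  · intro a ha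
    rw [mem_ZB] at ha
    rw [mem_filter, mem_ZB, nrm_mul, nrm_lam, hA]
    refine ⟨?_, ?_⟩
    · have := Nat.div_mul_le_self V 3
      omega
    · rw [e1, e2]
      exact ⟨a.re - a.im, by ring⟩
  · intro a _ b _ h
    exact mul_left_cancel₀ lam_ne h
  · intro b hb
    rw [mem_filter, mem_ZB, hA] at hb
    obtain ⟨h1, k, hk⟩ := hb
    have hb' : lam * (⟨-b.re + 2 * k, -b.re + k⟩ : Ei) = b := by
      apply QuadraticAlgebra.ext
      · rw [e1]
        simp only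
        ring
      · rw [e2]
        simp only
        linarith
    refine ⟨⟨-b.re + 2 * k, -b.re + k⟩, ?_, hb'⟩
    rw [mem_ZB, Nat.le_div_iff_mul_le (by norm_num), mul_comm, ← nrm_lam, ← nrm_mul, hb']
    exact h1

/-- the number of the elements of norm at most `V / 3` -/
theorem third (V : ℕ) : |((ZB (V / 3)).card : ℝ) - 1 / 3 * ((ZB V).card : ℝ)| ≤
    9 * (3 * Real.sqrt V + 1) := by
  obtain ⟨δ, -, -, h3, h4⟩ := per_count (fun a : Ei => (3 : ℤ) ∣ a.re + a.im) (N := 3)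
    (by norm_num) (fun x y => by push_cast; omega) (fun x y => by push_cast; omega)
  have h5 : δ = 1 / 3 := by
    simp only [sum_range_succ, sum_range_zero] at h3
    norm_num at h3
    linarith
  have h6 := h4 V
  rw [← card_third _ (fun a => Iff.rfl), h5] at h6
  norm_num at h6 ⊢
  linarith

/-- the approximation of the number of the cube-free elements -/
theorem appr : ∃ C : ℝ, 0 < C ∧ ∀ P : ℕ, 1 ≤ P → ∃ (δ K : ℝ), 0 ≤ δ ∧ δ ≤ 1 ∧ 0 ≤ K ∧
    ∀ V : ℕ, |(PP V : ℝ) - δ * ((ZB V).card : ℝ)| ≤ K * (3 * Real.sqrt V + 1) + C * V / P := by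
  obtain ⟨C, hC, hD⟩ := diff_card
  refine ⟨C, hC, fun P hP => ?_⟩
  have hq : (9 * q0 P : Ei) ≠ 0 := mul_ne_zero nine_ne (q0_ne P)
  have hG : ∀ a b : Ei, (9 : Ei) * q0 P ∣ a - b → G P a → G P b := by
    intro a b hab h
    have h9 : (9 : Ei) ∣ a - b := (dvd_mul_right _ _).trans hab
    have h0 : q0 P ∣ a - b := (dvd_mul_left _ _).trans hab
    refine ⟨prm_per h9 h.1, fun π hπ hd => h.2 π hπ ?_⟩
    have h2 : π ^ 3 ∣ q0 P := dvd_prod_of_mem (fun π => π ^ 3) hπ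
    have h3 : a = (a - b) + b := by ring
    rw [h3]
    exact dvd_add (h2.trans h0) hd
  have hGi : ∀ a b : Ei, (9 : Ei) * q0 P ∣ a - b → (G P a ↔ G P b) := fun a b hab =>
    ⟨hG a b hab, hG b a (by rw [← neg_sub]; exact (dvd_neg).2 hab)⟩
  obtain ⟨δ, h1, h2, -, h4⟩ := per_count (G P) (N := nrm (9 * q0 P))
    (Nat.pos_of_ne_zero (nrm_ne hq))
    (fun x y => hGi _ _ (by
      have : (⟨x + (nrm (9 * q0 P) : ℕ), y⟩ : Ei) - ⟨x, y⟩ = ((nrm (9 * q0 P) : ℕ) : Ei) := by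
        ext <;> simp
      rw [this]
      exact dvd_nrm _))
    (fun x y => hGi _ _ (by
      have : (⟨x, y + (nrm (9 * q0 P) : ℕ)⟩ : Ei) - ⟨x, y⟩ = ((nrm (9 * q0 P) : ℕ) : Ei) * w := by
        ext <;> simp [Pool.Agent.Y692.QS.w]
      rw [this]
      exact (dvd_nrm _).mul_right _))
  refine ⟨δ, 3 * nrm (9 * q0 P), h1, h2, by positivity, fun V => ?_⟩
  have h5 : PP V = (CF V).card := card_CF V
  have h6 := card_sdiff_add_card_eq_card (CF_sub V P)
  have h7 : (((ZB V).filter (G P)).card : ℝ) =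
      ((((ZB V).filter (G P)) \ CF V).card : ℝ) + ((CF V).card : ℝ) := by exact_mod_cast h6.symm
  have h8 := hD V P hP
  have h9 := h4 V
  have h10 : (0 : ℝ) ≤ ((((ZB V).filter (G P)) \ CF V).card : ℝ) := Nat.cast_nonneg _
  rw [h5]
  rw [abs_le] at h9 ⊢
  constructor <;> linarith [h9.1, h9.2]

/-- **The ratio.** -/
theorem ratio : Tendsto (fun X : ℕ => (PP (X / 3) : ℝ) / (PP X : ℝ)) atTop (𝓝 (1 / 3)) := by
  obtain ⟨⟨c, hc, X₀, hlow⟩, -⟩ := den3
  obtain ⟨C, hC, hA⟩ := appr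
  rw [Metric.tendsto_atTop]
  intro ε hε
  obtain ⟨P, hP⟩ := exists_nat_ge (4 * C / (c * ε) + 1)
  have hcε : 0 < c * ε := mul_pos hc hε
  have hP1' : (1 : ℝ) ≤ P := le_trans (by
    have : 0 ≤ 4 * C / (c * ε) := by positivity
    linarith) hP
  have hP1 : 1 ≤ P := by exact_mod_cast hP1'
  have hP0 : (0 : ℝ) < P := by linarith
  obtain ⟨δ, K, h1, h2, hK, h4⟩ := hA P hP1
  obtain ⟨X₁, hX₁⟩ := exists_nat_ge ((4 * (4 * (2 * K + 9)) / (c * ε)) ^ 2 + 1)
  refine ⟨max X₀ X₁, fun X hX => ?_⟩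
  have hX0 : X₀ ≤ X := (le_max_left _ _).trans hX
  have hX1 : (4 * (4 * (2 * K + 9)) / (c * ε)) ^ 2 + 1 ≤ (X : ℝ) :=
    hX₁.trans (by exact_mod_cast (le_max_right _ _).trans hX)
  have hXone : (1 : ℝ) ≤ X := by nlinarith [sq_nonneg (4 * (4 * (2 * K + 9)) / (c * ε))]
  have hsq : 4 * (4 * (2 * K + 9)) / (c * ε) ≤ Real.sqrt X := by
    refine Real.le_sqrt_of_sq_le ?_
    linarith
  have hs1 : 1 ≤ Real.sqrt X := Real.one_le_sqrt.2 hXone
  have hss : Real.sqrt X * Real.sqrt X = X := Real.mul_self_sqrt (by positivity)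
  have h5 := h4 X
  have h6 := h4 (X / 3)
  have h7 := third X
  have hXd : ((X / 3 : ℕ) : ℝ) ≤ X := by exact_mod_cast Nat.div_le_self X 3
  have hsd : Real.sqrt ((X / 3 : ℕ) : ℝ) ≤ Real.sqrt X := Real.sqrt_le_sqrt hXd
  have h8 : C * ((X / 3 : ℕ) : ℝ) / P ≤ C * X / P := by gcongr
  have h9 : C * (X : ℝ) / P ≤ c * ε / 4 * X := by
    rw [div_le_iff₀ hP0]
    have : 4 * C / (c * ε) ≤ P := by linarith
    rw [div_le_iff₀ hcε] at this
    nlinarith
  have h10 : (2 * K + 9) * (3 * Real.sqrt X + 1) ≤ c * ε / 4 * X := by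
    rw [div_le_iff₀ hcε] at hsq
    calc (2 * K + 9) * (3 * Real.sqrt X + 1) ≤ (2 * K + 9) * (4 * Real.sqrt X) := by
          gcongr
          linarith
      _ = (4 * (4 * (2 * K + 9))) * Real.sqrt X / 4 := by ring
      _ ≤ (Real.sqrt X * (c * ε)) * Real.sqrt X / 4 := by gcongr
      _ = c * ε / 4 * (Real.sqrt X * Real.sqrt X) := by ring
      _ = c * ε / 4 * X := by rw [hss]
  have h11 : K * (3 * Real.sqrt ((X / 3 : ℕ) : ℝ) + 1) ≤ K * (3 * Real.sqrt X + 1) := by gcongr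
  have hl : c * X ≤ (PP X : ℝ) := hlow X hX0
  have hp : (0 : ℝ) < (PP X : ℝ) := lt_of_lt_of_le (by positivity) hl
  have hkey : |(PP (X / 3) : ℝ) - 1 / 3 * (PP X : ℝ)| ≤ 3 / 4 * (c * ε * X) := by
    have e1 : δ * |((ZB (X / 3)).card : ℝ) - 1 / 3 * ((ZB X).card : ℝ)| ≤
        9 * (3 * Real.sqrt X + 1) :=
      (mul_le_of_le_one_left (abs_nonneg _) h2).trans h7
    have e2 : |δ * (((ZB (X / 3)).card : ℝ) - 1 / 3 * ((ZB X).card : ℝ))| ≤
        9 * (3 * Real.sqrt X + 1) := by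
      rw [abs_mul, abs_of_nonneg h1]
      exact e1
    rw [abs_le] at h5 h6 e2 ⊢
    constructor <;> nlinarith [h5.1, h5.2, h6.1, h6.2, e2.1, e2.2]
  rw [Real.dist_eq]
  have e3 : (PP (X / 3) : ℝ) / (PP X : ℝ) - 1 / 3 =
      ((PP (X / 3) : ℝ) - 1 / 3 * (PP X : ℝ)) / (PP X : ℝ) := by
    field_simp
  rw [e3, abs_div, abs_of_pos hp, div_lt_iff₀ hp]
  calc _ ≤ 3 / 4 * (c * ε * X) := hkey
    _ = 3 / 4 * ε * (c * X) := by ring
    _ ≤ 3 / 4 * ε * (PP X : ℝ) := by gcongr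
    _ < ε * (PP X : ℝ) := by nlinarith

end Pool.Agent.D0H10.KH
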