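import Pool.Agent.D0H42.L9.Lkx
import Pool.Agent.N883.FF.End
import Pool.Agent.D0H10.KH.Cnt

/-!
# The twists by `D` and by `D c ^ 3`
-/

set_option autoImplicit false
set_option linter.unusedVariables false
set_option linter.unusedSectionVars false

namespace Pool.Agent.D0H10.KH

open NumberField IsDedekindDomain WeierstrassCurve
open Pool.Agent.W189.NF (aV eV redMap Ov mem_max_iff finite_res card_res redMap_eq_zero aLoc eLoc
  localPolynomial_eq)
open Pool.Agent.H921R2.TatePole (nm two_le_nm)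
open Pool.Agent.Y703.CT
open Pool.Agent.Y696 Pool.Agent.Y696.CT
open Pool.Agent.Y696.CTK
open Pool.Agent.Y692.QS hiding chi
open Pool.Agent.Y715.T.Rec (cs nn w_add)
open Pool.Agent.Y715.T.RecG (Pq cs_spec cs_mul cs_pow cs_of)
open Pool.Agent.R419.CE (three_pD pi_dvd_pD val_ne tw_div)
open Pool.Agent.N883.FF (FamE fam_data NxE)
open Pool.Agent.N883.FF.Lk (isUnit_wpow)
open Pool.Agent.Y715.T.Gi (lam prime_lam lam_sq QB GK ev ev_ne gk_ev Kc)
open scoped Classical

/-- the `L`-function is determined by the local numbers -/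
lemma lfun_congr {K : Type} [Field K] [NumberField K] {W V : WeierstrassCurve K}
    (h : ∀ v : HeightOneSpectrum (𝓞 K), aV W v = aV V v ∧ eV W v = eV V v) :
    W.LFunction = V.LFunction := by
  unfold WeierstrassCurve.LFunction
  congr 1
  funext p
  unfold WeierstrassCurve.localEulerFactor WeierstrassCurve.localPowerSeries
  rw [localPolynomial_eq, localPolynomial_eq]
  have h1 := (h p).1
  have h2 := (h p).2
  unfold aV at h1
  unfold eV at h2
  rw [h1, h2]

section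
variable {K : Type} [Field K] [NumberField K] (j : Ei ≃+* 𝓞 K)

/-- at the prime above three -/
lemma bad3 {P : HeightOneSpectrum Ei} (h : (3 : ℤ) ∣ nr (gn P.asIdeal)) (b : Bool) {a : ℕ}
    (ha : a < 3) {z : Ei} (hz : ¬ lam ∣ z) :
    aV (ED (j (sg b * (lam ^ a * z)) : K)) (pK j P) = 0 ∧
      eV (ED (j (sg b * (lam ^ a * z)) : K)) (pK j P) = 0 := by
  have hs := three_span h
  refine bad_of (t := j tht) (r := (j z) ^ 4) (m := 6 + 4 * a) ?_
    (pK_span j hs) (by omega) ?_ ?_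
  · rw [Ne, map_eq_zero_iff j j.injective]
    exact tht_prime.ne_zero
  · intro h4
    have h5 := (pK j P).isPrime.mem_of_pow_mem 4 h4
    rw [mem_pK, hs, Ideal.mem_span_singleton] at h5
    exact hz h5
  · have h7 : (-27 : 𝓞 K) = (j tht) ^ 6 := by
      rw [← map_pow]
      have : tht ^ 6 = -27 := by decide
      rw [this, map_neg, map_ofNat]
    have h8 : (j (sg b)) ^ 4 = 1 := by
      rw [← map_pow]
      have : ∀ b, sg b ^ 4 = 1 := by decide
      rw [this, map_one]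
    have h9 : (lam : Ei) = tht := rfl
    rw [h7, h9, map_mul, map_mul, map_pow, mul_pow, mul_pow, h8, one_mul, ← pow_mul, mul_comm a 4,
      pow_add]
    ring

variable {J : Type} [Fintype J] {π : J → Ei} {e : J → ZMod 3}

/-- at the primes dividing `D` -/
lemma badD {P : HeightOneSpectrum Ei} (hdt : Dt π e) (c : Ei) (hc : ∀ i, ¬ π i ∣ c) {i : J}
    (h : P.asIdeal = Ideal.span {π i}) :
    aV (ED (j (c * pD π e) : K)) (pK j P) = 0 ∧ eV (ED (j (c * pD π e) : K)) (pK j P) = 0 := by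
  have hi := hdt.pq i
  have hsp : pD π e = π i ^ (e i).val * ∏ l ∈ Finset.univ.erase i, π l ^ (e l).val := by
    unfold pD
    exact (Finset.mul_prod_erase Finset.univ (fun l => π l ^ (e l).val) (Finset.mem_univ i)).symm
  refine bad_of (t := j (π i)) (r := -27 * (j (c *
    ∏ l ∈ Finset.univ.erase i, π l ^ (e l).val)) ^ 4)
    (m := 4 * (e i).val) ?_ (pK_span j h) ?_ ?_ ?_
  · rw [Ne, map_eq_zero_iff j j.injective]
    exact hi.prime.ne_zero
  · have h1 : (e i).val < 3 := ZMod.val_lt _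
    have h2 : (e i).val ≠ 0 := val_ne (hdt.e0 i)
    omega
  · intro h4
    rcases (pK j P).isPrime.mem_or_mem h4 with h5 | h5
    · have h6 : (-27 : 𝓞 K) = j (-(3 ^ 3)) := by
        rw [map_neg, map_pow, map_ofNat]
        norm_num
      rw [h6, mem_pK, h, Ideal.mem_span_singleton, dvd_neg] at h5
      exact hi.norm (hi.prime.dvd_of_dvd_pow h5)
    · have h6 := (pK j P).isPrime.mem_of_pow_mem 4 h5
      rw [mem_pK, h, Ideal.mem_span_singleton] at h6
      rcases hi.prime.dvd_or_dvd h6 with h6 | h6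
      · exact hc i h6
      · rw [Prime.dvd_finsetProd_iff hi.prime] at h6
        obtain ⟨l, hl, h7⟩ := h6
        exact hdt.nd l i (Finset.ne_of_mem_erase hl) (hi.prime.dvd_of_dvd_pow h7)
  · rw [hsp]
    simp only [map_mul]
    rw [map_pow j (π i)]
    ring

/-- the symbol -/
lemma cs_cube {ρ D c : Ei} (hρ : Pq ρ) (hD : ¬ ρ ∣ D) (hc : ¬ ρ ∣ c) :
    cs ρ (D * c ^ 3) = cs ρ D := by
  rw [cs_mul hρ.prime hρ.norm hD (fun h => hc (hρ.prime.dvd_of_dvd_pow h)),
    cs_pow hρ.prime hρ.norm hc]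
  have : ((3 : ℕ) : ZMod 3) = 0 := by decide
  rw [this, zero_mul, add_zero]

/-- **The `L`-functions of `E_D` and `E_{D c³}`**, `c` a divisor of a power of `√-3`, `D` cube-free. -/
theorem lf_eq (hdt : Dt π e) (i : ZMod 3) (b b' : Bool) {a a' : ℕ} (ha : a < 3)
    (c : Ei) (hc : ∀ ρ, Pq ρ → ¬ ρ ∣ c) (D₀ : Ei)
    (hD : sg b * (lam ^ a * (w ^ i.val * pD π e)) * c ^ 3 = D₀)
    (h3 : ∀ P : HeightOneSpectrum Ei, (3 : ℤ) ∣ nr (gn P.asIdeal) →
      aV (ED (j D₀ : K)) (pK j P) = 0 ∧ eV (ED (j D₀ : K)) (pK j P) = 0)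
    (hz : ¬ lam ∣ w ^ i.val * pD π e) :
    (ED (j (sg b * (lam ^ a * (w ^ i.val * pD π e))) : K)).LFunction =
      (ED (j D₀ : K)).LFunction := by
  subst hD
  refine lfun_congr fun v => ?_
  obtain ⟨P, rfl⟩ := (eK j).surjective v
  show aV _ (pK j P) = aV _ (pK j P) ∧ eV _ (pK j P) = eV _ (pK j P)
  by_cases hP3 : (3 : ℤ) ∣ nr (gn P.asIdeal)
  · obtain ⟨k1, k2⟩ := bad3 j hP3 b ha hz
    obtain ⟨k3, k4⟩ := h3 P hP3
    rw [k1, k2, k3, k4]
    exact ⟨rfl, rfl⟩
  · set α := ns (gn P.asIdeal) with hα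
    have hs := span_ns hP3
    rw [← hα] at hs
    have hpq := pq_ns hP3
    rw [← hα] at hpq
    have hcu : ∀ ρ, Pq ρ → ¬ ρ ∣ sg b * (lam ^ a * w ^ i.val) := by
      intro ρ hρ h
      rcases hρ.prime.dvd_or_dvd h with h | h
      · exact hρ.prime.not_isUnit (isUnit_of_dvd_unit h (sg_unit b))
      rcases hρ.prime.dvd_or_dvd h with h | h
      · exact hρ.norm ((hρ.prime.dvd_of_dvd_pow h).trans lam_dvd_three)
      · exact hρ.prime.not_isUnit (isUnit_of_dvd_unit h (isUnit_wpow _))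
    have e1 : sg b * (lam ^ a * (w ^ i.val * pD π e)) =
        sg b * (lam ^ a * w ^ i.val) * pD π e := by ring
    have e2 : sg b * (lam ^ a * (w ^ i.val * pD π e)) * c ^ 3 =
        (sg b * (lam ^ a * w ^ i.val) * c ^ 3) * pD π e := by ring
    have hcu2 : ∀ ρ, Pq ρ → ¬ ρ ∣ sg b * (lam ^ a * w ^ i.val) * c ^ 3 := by
      intro ρ hρ h
      rcases hρ.prime.dvd_or_dvd h with h | h
      · exact hcu ρ hρ h
      · exact hc ρ hρ (hρ.prime.dvd_of_dvd_pow h)
    by_cases hd : α ∣ pD π e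
    · obtain ⟨k, hk⟩ := dvd_pD hpq.prime hdt hd
      have hsk : P.asIdeal = Ideal.span {π k} := by
        rw [hs]
        exact Ideal.span_singleton_eq_span_singleton.2
          ((hdt.pq k).prime.associated_of_dvd hpq.prime hk).symm
      obtain ⟨k1, k2⟩ := badD j hdt _ (fun l => hcu (π l) (hdt.pq l)) hsk
      obtain ⟨k3, k4⟩ := badD j hdt _ (fun l => hcu2 (π l) (hdt.pq l)) hsk
      rw [e2, k3, k4, e1, k1, k2]
      exact ⟨rfl, rfl⟩
    · have hd1 : ¬ α ∣ sg b * (lam ^ a * (w ^ i.val * pD π e)) := by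
        rw [e1]
        exact fun h => (hpq.prime.dvd_or_dvd h).elim (hcu α hpq) hd
      have hd2 : ¬ α ∣ sg b * (lam ^ a * (w ^ i.val * pD π e)) * c ^ 3 :=
        fun h => (hpq.prime.dvd_or_dvd h).elim hd1
          (fun h => hc α hpq (hpq.prime.dvd_of_dvd_pow h))
      obtain ⟨v1, v2⟩ := good_val j hpq (pK_span j hs) hd1
      obtain ⟨v3, v4⟩ := good_val j hpq (pK_span j hs) hd2
      rw [cs_cube hpq hd1 (hc α hpq)] at v3
      exact ⟨by exact_mod_cast v1.trans v3.symm, by exact_mod_cast v2.trans v4.symm⟩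

end

/-! ### the groups -/

lemma tw_mul {i₀ : QB} {hi : i₀ ^ 2 + i₀ + 1 = 0} {D c : Ei} {u : QB}
    {a : GK i₀ → ZMod 3} (hT : Tw hi D u a) : Tw hi (D * c ^ 3) (u * ev i₀ hi c) a := by
  refine ⟨?_, fun σ => ?_⟩
  · rw [mul_pow, hT.cube, map_mul, map_pow]
  · rw [map_mul, hT.act, gk_ev, mul_assoc]

/-- the criterion for `D` from the one for `D c ^ 3` -/
theorem tri_gen {K : Type} [Field K] [NumberField K] (j : Ei ≃+* 𝓞 K) {D D₀ c : Ei} (hc : c ≠ 0)
    (h : D * c ^ 3 = D₀) (hne : D ≠ 0) (P : Prop)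
    (ha : ∀ (i₀ : QB) (hi : i₀ ^ 2 + i₀ + 1 = 0) (u : QB) (a : GK i₀ → ZMod 3), Tw hi D₀ u a →
      ∃ σ, a σ ≠ 0)
    (hA : P → ∀ (i₀ : QB) (hi : i₀ ^ 2 + i₀ + 1 = 0) (u : QB) (a : GK i₀ → ZMod 3),
      Tw hi D₀ u a → Sel1 hi a)
    (hB : ∀ (i₀ : QB) (hi : i₀ ^ 2 + i₀ + 1 = 0) (u : QB) (a : GK i₀ → ZMod 3),
      Tw hi D₀ u a → Sel1 hi a → P) : Tri (j D) ↔ P := by
  subst h
  constructor
  · rintro ⟨h1, h2⟩
    obtain ⟨e', i₀, hi', u, a, Ψ, g, hdata⟩ := parts.trf K j _ hne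
    have hT := hdata.1
    have hT' := tw_mul (c := c) hT
    have ha' := ha i₀ hi' _ a hT'
    have hM := parts.mwc K j _ hne e' i₀ hi' u a Ψ g hdata ha' h1
    have hS := parts.shc parts.plc K j _ hne e' i₀ hi' u a Ψ g hdata h2
    have hsel := Pool.Agent.H70CT.t_SHC _ hne i₀ hi' u a hT ha' hS hM
    exact hB i₀ hi' _ a hT' hsel
  · intro hk
    refine ⟨(parts.mwt parts.trf K j _ hne fun i₀ hi u a hT => ?_).1,
      parts.sht parts.trf K j _ hne fun i₀ hi u a hT => ?_⟩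
    · exact Pool.Agent.Y155.CT.t_MWK _ hne i₀ hi u a hT (ha i₀ hi _ a (tw_mul hT))
        (hA hk i₀ hi _ a (tw_mul hT))
    · exact Pool.Agent.Y155.CT.t_SHK _ hne i₀ hi u a hT (hA hk i₀ hi _ a (tw_mul hT))

end Pool.Agent.D0H10.KH
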